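import Mathlib

/-!
Inducibility and iterated blow-ups: the basic inequality.
-/

set_option autoImplicit false

open Filter

namespace Pool.Agent.H68.Ind

/-- The number of `h`-element sets `S` of vertices of `G` such that the induced subgraph `G[S]` is
isomorphic to `H`. -/
noncomputable def copies {h : ℕ} (H : SimpleGraph (Fin h)) {V : Type} (G : SimpleGraph V) : ℕ :=
  Set.ncard {S : Finset V | S.card = h ∧ Nonempty (G.induce (S : Set V) ≃g H)}

/-- The maximum of `copies H G` over all graphs `G` on `n` vertices. -/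
noncomputable def maxCopies {h : ℕ} (H : SimpleGraph (Fin h)) (n : ℕ) : ℕ :=
  ⨆ G : SimpleGraph (Fin n), copies H G

/-- `H` belongs to the family of the question: its inducibility, the limit of
`maxCopies H n / binom n h`, is `h! / (h ^ h - h)`. -/
def Member {h : ℕ} (H : SimpleGraph (Fin h)) : Prop :=
  Tendsto (fun n : ℕ => (maxCopies H n : ℝ) / (n.choose h : ℝ)) atTop
    (nhds ((h.factorial : ℝ) / ((h : ℝ) ^ h - h)))

/-! ### copies as ranges of embeddings -/

def IsCopy {h : ℕ} (H : SimpleGraph (Fin h)) {V : Type} (G : SimpleGraph V) (S : Finset V) : Prop :=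
  ∃ φ : H ↪g G, Set.range φ = (S : Set V)

theorem isCopy_iff {h : ℕ} (H : SimpleGraph (Fin h)) {V : Type} (G : SimpleGraph V)
    (S : Finset V) : IsCopy H G S ↔ (S.card = h ∧ Nonempty (G.induce (S : Set V) ≃g H)) := by
  constructor
  · rintro ⟨φ, hφ⟩
    have e : Fin h ≃ (S : Set V) := (Equiv.ofInjective φ φ.injective).trans (Equiv.setCongr hφ)
    refine ⟨?_, ⟨?_⟩⟩
    · have := Nat.card_congr e
      simpa using this.symm
    · have e' : Fin h ≃ (S : Set V) := (Equiv.ofInjective φ φ.injective).trans (Equiv.setCongr hφ)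
      refine (⟨(Equiv.ofInjective φ φ.injective).trans (Equiv.setCongr hφ), ?_⟩ :
        H ≃g G.induce (S : Set V)).symm
      intro a b
      exact φ.map_rel_iff
  · rintro ⟨_, ⟨e⟩⟩
    refine ⟨(SimpleGraph.Embedding.induce (S : Set V)).comp e.symm.toEmbedding, ?_⟩
    ext x
    constructor
    · rintro ⟨a, rfl⟩
      exact (e.symm a).2
    · intro hx
      refine ⟨e ⟨x, hx⟩, ?_⟩
      simp

theorem copies_eq {h : ℕ} (H : SimpleGraph (Fin h)) {V : Type} (G : SimpleGraph V) :
    copies H G = Nat.card {S : Finset V // IsCopy H G S} := by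
  unfold copies
  rw [← Nat.card_coe_set_eq]
  exact Nat.card_congr (Equiv.subtypeEquivRight fun S => (isCopy_iff H G S).symm)

/-- a family of embeddings with pairwise different ranges bounds the number of copies -/
theorem le_copies {h : ℕ} (H : SimpleGraph (Fin h)) {V : Type} [Finite V] (G : SimpleGraph V)
    {ι : Type} [Finite ι] (φ : ι → H ↪g G)
    (hφ : ∀ i j, Set.range (φ i) = Set.range (φ j) → i = j) : Nat.card ι ≤ copies H G := by
  classical
  rw [copies_eq]
  let F : ι → {S : Finset V // IsCopy H G S} := fun i =>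
    ⟨Finset.univ.image (φ i), φ i, by simp⟩
  apply Nat.card_le_card_of_injective F
  intro i j hij
  apply hφ
  have h1 : Finset.univ.image (φ i) = Finset.univ.image (φ j) := congrArg Subtype.val hij
  have h2 := congrArg (fun s : Finset V => (s : Set V)) h1
  simpa using h2

theorem copies_le_of_iso {h : ℕ} (H : SimpleGraph (Fin h)) {V W : Type} [Finite V] [Finite W]
    {G : SimpleGraph V} {G' : SimpleGraph W} (e : G ≃g G') : copies H G ≤ copies H G' := by
  classical
  rw [copies_eq]
  choose φ hφ using fun S : {S : Finset V // IsCopy H G S} => S.2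
  refine le_copies H G' (fun S => e.toEmbedding.comp (φ S)) ?_
  intro S T hST
  have h1 : ∀ S : {S : Finset V // IsCopy H G S},
      Set.range (e.toEmbedding.comp (φ S)) = e '' (S.1 : Set V) := by
    intro S
    rw [← hφ S]
    ext x
    simp
  rw [h1, h1] at hST
  have h2 := e.injective.image_injective hST
  exact Subtype.ext (Finset.coe_injective h2)

theorem bdd {h : ℕ} (H : SimpleGraph (Fin h)) (n : ℕ) :
    BddAbove (Set.range fun G : SimpleGraph (Fin n) => copies H G) := by
  refine ⟨Nat.card (Finset (Fin n)), ?_⟩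
  rintro _ ⟨G, rfl⟩
  change copies H G ≤ _
  rw [copies_eq]
  exact Nat.card_le_card_of_injective _ Subtype.val_injective

theorem copies_le_max {h : ℕ} (H : SimpleGraph (Fin h)) {V : Type} [Fintype V]
    (G : SimpleGraph V) : copies H G ≤ maxCopies H (Fintype.card V) := by
  let e := Fintype.equivFin V
  have h1 : copies H G ≤ copies H (G.map e.toEmbedding) :=
    copies_le_of_iso H (SimpleGraph.Iso.map e G)
  exact h1.trans (le_ciSup (bdd H (Fintype.card V)) _)

theorem exists_max {h : ℕ} (H : SimpleGraph (Fin h)) (n : ℕ) :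
    ∃ G : SimpleGraph (Fin n), copies H G = maxCopies H n := by
  have h1 := Nat.sSup_mem (s := Set.range fun G : SimpleGraph (Fin n) => copies H G)
    (Set.range_nonempty _) (bdd H n)
  obtain ⟨G, hG⟩ := h1
  exact ⟨G, hG⟩

/-! ### the lexicographic product -/

/-- `G` with a copy of `G'` inside every vertex -/
def lex {V W : Type} (G : SimpleGraph V) (G' : SimpleGraph W) : SimpleGraph (V × W) where
  Adj x y := G.Adj x.1 y.1 ∨ (x.1 = y.1 ∧ G'.Adj x.2 y.2)
  symm := ⟨by
    rintro x y (h | ⟨h1, h2⟩)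
    · exact Or.inl h.symm
    · exact Or.inr ⟨h1.symm, h2.symm⟩⟩
  loopless := ⟨by
    rintro x (h | ⟨_, h2⟩)
    · exact G.loopless.irrefl _ h
    · exact G'.loopless.irrefl _ h2⟩

def lexTop {h : ℕ} {H : SimpleGraph (Fin h)} {V W : Type} {G : SimpleGraph V} (G' : SimpleGraph W)
    (φ : H ↪g G) (f : Fin h → W) : H ↪g lex G G' where
  toFun v := (φ v, f v)
  inj' := fun v w hvw => φ.injective (congrArg Prod.fst hvw)
  map_rel_iff' := by
    intro v w
    constructor
    · rintro (h1 | ⟨h1, h2⟩)
      · exact φ.map_rel_iff.1 h1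
      · have h3 : v = w := φ.injective h1
        subst h3
        exact absurd h2 (G'.loopless.irrefl _)
    · intro h1
      exact Or.inl (φ.map_rel_iff.2 h1)

def lexIn {h : ℕ} {H : SimpleGraph (Fin h)} {V W : Type} (G : SimpleGraph V) {G' : SimpleGraph W}
    (a : V) (φ : H ↪g G') : H ↪g lex G G' where
  toFun v := (a, φ v)
  inj' := fun v w hvw => φ.injective (congrArg Prod.snd hvw)
  map_rel_iff' := by
    intro v w
    constructor
    · rintro (h1 | ⟨_, h2⟩)
      · exact absurd h1 (G.loopless.irrefl _)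
      · exact φ.map_rel_iff.1 h2
    · intro h1
      exact Or.inr ⟨rfl, φ.map_rel_iff.2 h1⟩

theorem copies_lex {h : ℕ} (hh : 2 ≤ h) (H : SimpleGraph (Fin h)) {V W : Type} [Finite V]
    [Finite W] (G : SimpleGraph V) (G' : SimpleGraph W) :
    copies H G * Nat.card W ^ h + Nat.card V * copies H G' ≤ copies H (lex G G') := by
  classical
  have hc : copies H G * Nat.card W ^ h + Nat.card V * copies H G' =
      Nat.card (({S : Finset V // IsCopy H G S} × (Fin h → W)) ⊕
        (V × {S : Finset W // IsCopy H G' S})) := by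
    rw [Nat.card_sum, Nat.card_prod, Nat.card_prod, copies_eq, copies_eq, Nat.card_fun,
      Nat.card_eq_fintype_card (α := Fin h), Fintype.card_fin]
  rw [hc]
  choose φ hφ using fun S : {S : Finset V // IsCopy H G S} => S.2
  choose ψ hψ using fun S : {S : Finset W // IsCopy H G' S} => S.2
  let v0 : Fin h := ⟨0, by omega⟩
  let v1 : Fin h := ⟨1, by omega⟩
  have h01 : v0 ≠ v1 := by
    intro h1
    have := congrArg Fin.val h1
    simp [v0, v1] at this
  refine le_copies H (lex G G') (fun p => match p with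
    | Sum.inl q => lexTop G' (φ q.1) q.2
    | Sum.inr q => lexIn G q.1 (ψ q.2)) ?_
  have r1 : ∀ (S : {S : Finset V // IsCopy H G S}) (f : Fin h → W),
      Prod.fst '' Set.range (lexTop G' (φ S) f) = (S.1 : Set V) := by
    intro S f
    rw [← Set.range_comp, ← hφ S]
    rfl
  rintro (⟨S, f⟩ | ⟨a, S⟩) (⟨T, g⟩ | ⟨b, T⟩) hST
  · change Set.range (lexTop G' (φ S) f) = Set.range (lexTop G' (φ T) g) at hST
    have h1 : S = T := by
      have h2 := congrArg (fun X => Prod.fst '' X) hST
      simp only [r1] at h2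
      exact Subtype.ext (Finset.coe_injective h2)
    subst h1
    have h2 : f = g := by
      funext v
      have h3 : lexTop G' (φ S) f v ∈ Set.range (lexTop G' (φ S) g) := by
        rw [← hST]; exact ⟨v, rfl⟩
      obtain ⟨w, hw⟩ := h3
      have h4 : φ S w = φ S v := congrArg Prod.fst hw
      have h5 : g w = f v := congrArg Prod.snd hw
      rw [(φ S).injective h4] at h5
      exact h5.symm
    rw [h2]
  · exfalso
    change Set.range (lexTop G' (φ S) f) = Set.range (lexIn G b (ψ T)) at hST
    have h3 : ∀ v, φ S v = b := by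
      intro v
      have : lexTop G' (φ S) f v ∈ Set.range (lexIn G b (ψ T)) := by rw [← hST]; exact ⟨v, rfl⟩
      obtain ⟨w, hw⟩ := this
      exact (congrArg Prod.fst hw).symm
    exact h01 ((φ S).injective ((h3 v0).trans (h3 v1).symm))
  · exfalso
    change Set.range (lexIn G a (ψ S)) = Set.range (lexTop G' (φ T) g) at hST
    have h3 : ∀ v, φ T v = a := by
      intro v
      have : lexTop G' (φ T) g v ∈ Set.range (lexIn G a (ψ S)) := by rw [hST]; exact ⟨v, rfl⟩
      obtain ⟨w, hw⟩ := this
      exact (congrArg Prod.fst hw).symm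
    exact h01 ((φ T).injective ((h3 v0).trans (h3 v1).symm))
  · change Set.range (lexIn G a (ψ S)) = Set.range (lexIn G b (ψ T)) at hST
    have h1 : a = b := by
      have : lexIn G a (ψ S) v0 ∈ Set.range (lexIn G b (ψ T)) := by rw [← hST]; exact ⟨v0, rfl⟩
      obtain ⟨w, hw⟩ := this
      exact (congrArg Prod.fst hw).symm
    have r2 : ∀ (c : V) (S : {S : Finset W // IsCopy H G' S}),
        Prod.snd '' Set.range (lexIn G c (ψ S)) = (S.1 : Set W) := by
      intro c S
      rw [← Set.range_comp, ← hψ S]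
      rfl
    have h2 : S = T := by
      have h2 := congrArg (fun X => Prod.snd '' X) hST
      simp only [r2] at h2
      exact Subtype.ext (Finset.coe_injective h2)
    rw [h1, h2]

theorem max_step {h : ℕ} (hh : 2 ≤ h) (H : SimpleGraph (Fin h)) {V : Type} [Fintype V]
    (G : SimpleGraph V) (n : ℕ) :
    copies H G * n ^ h + Fintype.card V * maxCopies H n ≤ maxCopies H (Fintype.card V * n) := by
  obtain ⟨G', hG'⟩ := exists_max H n
  have h1 := copies_lex hh H G G'
  rw [hG', Nat.card_eq_fintype_card, Nat.card_eq_fintype_card, Fintype.card_fin] at h1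
  have h2 := copies_le_max H (lex G G')
  rw [Fintype.card_prod, Fintype.card_fin] at h2
  exact h1.trans h2

/-- the iterated blow-up of `G` of depth `k` -/
theorem max_pow {h : ℕ} (hh : 2 ≤ h) (H : SimpleGraph (Fin h)) {V : Type} [Fintype V]
    (G : SimpleGraph V) (k : ℕ) :
    (copies H G : ℝ) * ((Fintype.card V : ℝ) ^ (h * k) - (Fintype.card V : ℝ) ^ k) ≤
      (maxCopies H (Fintype.card V ^ k) : ℝ) *
        ((Fintype.card V : ℝ) ^ h - (Fintype.card V : ℝ)) := by
  induction k with
  | zero =>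
    have h0 : (0 : ℝ) ≤ (Fintype.card V : ℝ) ^ h - (Fintype.card V : ℝ) := by
      rcases Nat.eq_zero_or_pos (Fintype.card V) with h0 | h0
      · rw [h0]; simp [show h ≠ 0 by omega]
      · have h1 : (1 : ℝ) ≤ (Fintype.card V : ℝ) := by exact_mod_cast h0
        have := pow_le_pow_right₀ h1 (show 1 ≤ h by omega)
        rw [pow_one] at this
        linarith
    simp only [mul_zero, pow_zero, sub_self]
    positivity
  | succ k ih =>
    have h0 : (0 : ℝ) ≤ (Fintype.card V : ℝ) ^ h - (Fintype.card V : ℝ) := by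
      rcases Nat.eq_zero_or_pos (Fintype.card V) with h0 | h0
      · rw [h0]; simp [show h ≠ 0 by omega]
      · have h1 : (1 : ℝ) ≤ (Fintype.card V : ℝ) := by exact_mod_cast h0
        have := pow_le_pow_right₀ h1 (show 1 ≤ h by omega)
        rw [pow_one] at this
        linarith
    have h1 := max_step hh H G (Fintype.card V ^ k)
    have h2 : (copies H G : ℝ) * ((Fintype.card V : ℝ) ^ k) ^ h +
        (Fintype.card V : ℝ) * (maxCopies H (Fintype.card V ^ k) : ℝ) ≤
        (maxCopies H (Fintype.card V * Fintype.card V ^ k) : ℝ) := by exact_mod_cast h1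
    have h3 : Fintype.card V ^ (k + 1) = Fintype.card V * Fintype.card V ^ k := by ring
    rw [h3]
    have h4 := mul_le_mul_of_nonneg_right h2 h0
    refine le_trans ?_ h4
    have h5 : (0 : ℝ) ≤ (Fintype.card V : ℝ) := Nat.cast_nonneg _
    have h6 := mul_le_mul_of_nonneg_left ih h5
    have e1 : ((Fintype.card V : ℝ) ^ k) ^ h = (Fintype.card V : ℝ) ^ (h * k) := by
      rw [← pow_mul, mul_comm]
    have e2 : (Fintype.card V : ℝ) ^ (h * (k + 1)) =
        (Fintype.card V : ℝ) ^ (h * k) * (Fintype.card V : ℝ) ^ h := by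
      rw [← pow_add, Nat.mul_succ]
    rw [e1, e2, pow_succ]
    nlinarith [h6]

/-- **Basic inequality.** If `H` is in the family, no graph `G` contains more copies of `H` than
the iterated blow-up of `H` allows. -/
theorem basic {h : ℕ} (hh : 2 ≤ h) {H : SimpleGraph (Fin h)} (hH : Member H) {V : Type}
    [Fintype V] (G : SimpleGraph V) (hV : 2 ≤ Fintype.card V) :
    copies H G * (h ^ h - h) ≤ Fintype.card V ^ h - Fintype.card V := by
  set g := Fintype.card V with hg
  have hg1 : (1 : ℝ) < (g : ℝ) := by exact_mod_cast hV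
  have hg0 : (0 : ℝ) < (g : ℝ) := by linarith
  have hgg : (g : ℝ) < (g : ℝ) ^ h := by
    have := pow_lt_pow_right₀ hg1 (show 1 < h by omega)
    rwa [pow_one] at this
  have hh1 : (1 : ℝ) < (h : ℝ) := by exact_mod_cast hh
  have hhh : (h : ℝ) < (h : ℝ) ^ h := by
    have := pow_lt_pow_right₀ hh1 (show 1 < h by omega)
    rwa [pow_one] at this
  -- the limit along the powers of `g`
  have ht : Tendsto (fun k : ℕ => g ^ k) atTop atTop :=
    tendsto_pow_atTop_atTop_of_one_lt hV
  have h1 := hH.comp ht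
  have h2 : Tendsto (fun k : ℕ => (copies H G : ℝ) * (h.factorial : ℝ) *
      (1 - ((g : ℝ) ^ (h - 1))⁻¹ ^ k) / ((g : ℝ) ^ h - g)) atTop
      (nhds ((copies H G : ℝ) * (h.factorial : ℝ) * (1 - 0) / ((g : ℝ) ^ h - g))) := by
    have h3 : Tendsto (fun k : ℕ => ((g : ℝ) ^ (h - 1))⁻¹ ^ k) atTop (nhds 0) := by
      apply tendsto_pow_atTop_nhds_zero_of_lt_one
      · positivity
      · rw [inv_lt_one₀ (by positivity)]
        exact one_lt_pow₀ hg1 (by omega)
    exact (tendsto_const_nhds.mul (tendsto_const_nhds.sub h3)).div_const _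
  have h4 : ∀ᶠ k : ℕ in atTop, (copies H G : ℝ) * (h.factorial : ℝ) *
      (1 - ((g : ℝ) ^ (h - 1))⁻¹ ^ k) / ((g : ℝ) ^ h - g) ≤
      ((fun n : ℕ => (maxCopies H n : ℝ) / (n.choose h : ℝ)) ∘ fun k : ℕ => g ^ k) k := by
    filter_upwards [ht.eventually_ge_atTop h] with k hk
    change _ ≤ (maxCopies H (g ^ k) : ℝ) / ((g ^ k).choose h : ℝ)
    have c1 : (0 : ℝ) < ((g ^ k).choose h : ℝ) := by exact_mod_cast Nat.choose_pos hk
    have c2 : ((g ^ k).choose h : ℝ) * (h.factorial : ℝ) ≤ (g : ℝ) ^ (h * k) := by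
      have := Nat.choose_le_pow_div (α := ℝ) h (g ^ k)
      rw [le_div_iff₀ (by positivity)] at this
      refine this.trans (le_of_eq ?_)
      push_cast
      rw [← pow_mul, mul_comm]
    have c3 := max_pow hh H G k
    rw [← hg] at c3
    have c4 : (g : ℝ) ^ (h * k) * (1 - ((g : ℝ) ^ (h - 1))⁻¹ ^ k) = (g : ℝ) ^ (h * k) - g ^ k := by
      have : (g : ℝ) ^ (h * k) = (g : ℝ) ^ k * ((g : ℝ) ^ (h - 1)) ^ k := by
        rw [← pow_mul, ← pow_add]
        congr 1
        obtain ⟨m, rfl⟩ := Nat.exists_eq_add_of_le hh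
        have : 2 + m - 1 = 1 + m := by omega
        rw [this]
        ring
      rw [this, inv_pow]
      have hne : ((g : ℝ) ^ (h - 1)) ^ k ≠ 0 := by positivity
      field_simp
    have hinv : ((g : ℝ) ^ (h - 1))⁻¹ ^ k ≤ 1 := by
      apply pow_le_one₀ (by positivity)
      rw [inv_le_one₀ (by positivity)]
      exact one_le_pow₀ hg1.le
    rw [div_le_div_iff₀ (by linarith) c1]
    calc (copies H G : ℝ) * (h.factorial : ℝ) * (1 - ((g : ℝ) ^ (h - 1))⁻¹ ^ k) *
          ((g ^ k).choose h : ℝ)
        = (copies H G : ℝ) * (1 - ((g : ℝ) ^ (h - 1))⁻¹ ^ k) *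
          (((g ^ k).choose h : ℝ) * (h.factorial : ℝ)) := by ring
      _ ≤ (copies H G : ℝ) * (1 - ((g : ℝ) ^ (h - 1))⁻¹ ^ k) * (g : ℝ) ^ (h * k) := by
          apply mul_le_mul_of_nonneg_left c2
          have : 0 ≤ 1 - ((g : ℝ) ^ (h - 1))⁻¹ ^ k := by linarith
          positivity
      _ = (copies H G : ℝ) * ((g : ℝ) ^ (h * k) - g ^ k) := by rw [← c4]; ring
      _ ≤ _ := c3
  have h5 := le_of_tendsto_of_tendsto h2 h1 h4
  rw [sub_zero, mul_one, div_le_div_iff₀ (by linarith) (by linarith)] at h5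
  have hf : (0 : ℝ) < (h.factorial : ℝ) := by exact_mod_cast Nat.factorial_pos h
  have h6 : (copies H G : ℝ) * ((h : ℝ) ^ h - h) ≤ (g : ℝ) ^ h - g := by
    have : (h.factorial : ℝ) * ((copies H G : ℝ) * ((h : ℝ) ^ h - h)) ≤
        (h.factorial : ℝ) * ((g : ℝ) ^ h - g) := by nlinarith [h5]
    exact le_of_mul_le_mul_left this hf
  have n1 : h ≤ h ^ h := Nat.le_self_pow (by omega) h
  have n2 : g ≤ g ^ h := Nat.le_self_pow (by omega) g
  have h7 : ((copies H G * (h ^ h - h) : ℕ) : ℝ) ≤ ((g ^ h - g : ℕ) : ℝ) := by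
    rw [Nat.cast_mul, Nat.cast_sub n1, Nat.cast_sub n2]
    push_cast
    exact h6
  exact_mod_cast h7

end Pool.Agent.H68.Ind
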