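import Pool.Agent.H68.Ind.Basic

/-!
Members of the family are uniquely extendable: if the neighbourhood of one vertex is changed and
the new graph is isomorphic to the old one, then nothing was changed.
-/

set_option autoImplicit false
set_option linter.unusedSimpArgs false

open Filter

namespace Pool.Agent.H68.Ind

/-- The iterated blow-up of `H` of depth two, where the vertices in the blow-up of `v` have either
the neighbourhood of `v` in `H` or the one in `K`. -/
def twist {h : ℕ} (H K : SimpleGraph (Fin h)) (v u : Fin h) : SimpleGraph (Fin h × Fin h) where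
  Adj x y := (x.1 = y.1 ∧ H.Adj x.2 y.2) ∨ (x.1 ≠ y.1 ∧ x.1 ≠ v ∧ y.1 ≠ v ∧ H.Adj x.1 y.1) ∨
    (x.1 = v ∧ y.1 ≠ v ∧ ((H.Adj v x.2 ↔ H.Adj v u) ∧ H.Adj v y.1 ∨
      ¬ (H.Adj v x.2 ↔ H.Adj v u) ∧ K.Adj v y.1)) ∨
    (y.1 = v ∧ x.1 ≠ v ∧ ((H.Adj v y.2 ↔ H.Adj v u) ∧ H.Adj v x.1 ∨
      ¬ (H.Adj v y.2 ↔ H.Adj v u) ∧ K.Adj v x.1))
  symm := ⟨by
    rintro x y (⟨h1, h2⟩ | ⟨h1, h2, h3, h4⟩ | h1 | h1)
    · exact Or.inl ⟨h1.symm, h2.symm⟩
    · exact Or.inr (Or.inl ⟨h1.symm, h3, h2, h4.symm⟩)
    · exact Or.inr (Or.inr (Or.inr h1))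
    · exact Or.inr (Or.inr (Or.inl h1))⟩
  loopless := ⟨by
    rintro x (⟨_, h2⟩ | ⟨h1, _⟩ | ⟨h1, h2, _⟩ | ⟨h1, h2, _⟩)
    · exact H.loopless.irrefl _ h2
    · exact h1 rfl
    · exact h2 h1
    · exact h2 h1⟩

section
variable {h : ℕ} {H K : SimpleGraph (Fin h)} {v u : Fin h}

/-- transversals of the first type -/
theorem twist_first (f : Fin h → Fin h) (hf : (H.Adj v (f v) ↔ H.Adj v u)) (a b : Fin h) :
    (twist H K v u).Adj (a, f a) (b, f b) ↔ H.Adj a b := by
  change ((a = b ∧ H.Adj (f a) (f b)) ∨ (a ≠ b ∧ a ≠ v ∧ b ≠ v ∧ H.Adj a b) ∨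
    (a = v ∧ b ≠ v ∧ ((H.Adj v (f a) ↔ H.Adj v u) ∧ H.Adj v b ∨
      ¬ (H.Adj v (f a) ↔ H.Adj v u) ∧ K.Adj v b)) ∨
    (b = v ∧ a ≠ v ∧ ((H.Adj v (f b) ↔ H.Adj v u) ∧ H.Adj v a ∨
      ¬ (H.Adj v (f b) ↔ H.Adj v u) ∧ K.Adj v a))) ↔ H.Adj a b
  by_cases hab : a = b
  · subst hab
    have h1 := H.loopless.irrefl (f a)
    have h2 := H.loopless.irrefl a
    by_cases ha : a = v
    · subst ha; simp [h1, h2]
    · simp [h1, h2, ha]
  · by_cases ha : a = v
    · subst ha
      have hb : b ≠ a := fun h => hab h.symm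
      simp [hab, hb, hf]
    · by_cases hb : b = v
      · subst hb
        simp only [hab, ha, false_and, ne_eq, not_false_eq_true, not_true_eq_false, true_and,
          and_false, false_or, hf, not_true_eq_false, or_false]
        exact ⟨fun h => h.symm, fun h => h.symm⟩
      · simp [hab, ha, hb]

/-- transversals of the second type -/
theorem twist_second (hK : ∀ x y, x ≠ v → y ≠ v → (K.Adj x y ↔ H.Adj x y)) (f : Fin h → Fin h)
    (hf : ¬ (H.Adj v (f v) ↔ H.Adj v u)) (a b : Fin h) :
    (twist H K v u).Adj (a, f a) (b, f b) ↔ K.Adj a b := by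
  change ((a = b ∧ H.Adj (f a) (f b)) ∨ (a ≠ b ∧ a ≠ v ∧ b ≠ v ∧ H.Adj a b) ∨
    (a = v ∧ b ≠ v ∧ ((H.Adj v (f a) ↔ H.Adj v u) ∧ H.Adj v b ∨
      ¬ (H.Adj v (f a) ↔ H.Adj v u) ∧ K.Adj v b)) ∨
    (b = v ∧ a ≠ v ∧ ((H.Adj v (f b) ↔ H.Adj v u) ∧ H.Adj v a ∨
      ¬ (H.Adj v (f b) ↔ H.Adj v u) ∧ K.Adj v a))) ↔ K.Adj a b
  by_cases hab : a = b
  · subst hab
    have h1 := H.loopless.irrefl (f a)
    have h2 := K.loopless.irrefl a
    by_cases ha : a = v
    · subst ha; simp [h1, h2]
    · simp [h1, h2, ha]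
  · by_cases ha : a = v
    · subst ha
      have hb : b ≠ a := fun h => hab h.symm
      simp [hab, hb, hf]
    · by_cases hb : b = v
      · subst hb
        simp only [hab, ha, false_and, ne_eq, not_false_eq_true, not_true_eq_false, true_and,
          and_false, false_or, hf, or_false]
        exact ⟨fun h => h.symm, fun h => h.symm⟩
      · simp [hab, ha, hb, hK a b ha hb]

def innerEmb (H K : SimpleGraph (Fin h)) (v u i : Fin h) : H ↪g twist H K v u where
  toFun x := (i, x)
  inj' := fun _ _ hxy => congrArg Prod.snd hxy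
  map_rel_iff' := by
    intro a b
    change ((i = i ∧ H.Adj a b) ∨ (i ≠ i ∧ _) ∨ (i = v ∧ i ≠ v ∧ _) ∨ (i = v ∧ i ≠ v ∧ _)) ↔ _
    constructor
    · rintro (h1 | h1 | h1 | h1)
      · exact h1.2
      · exact absurd rfl h1.1
      · exact absurd h1.1 h1.2.1
      · exact absurd h1.1 h1.2.1
    · intro h1
      exact Or.inl ⟨rfl, h1⟩

open Classical in
/-- the additional copy -/
theorem extra_adj (huv : u ≠ v) (hu : ¬ (K.Adj v u ↔ H.Adj v u)) (a b : Fin h) :
    (twist H K v u).Adj (if a = v then (u, v) else (v, a)) (if b = v then (u, v) else (v, b)) ↔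
      H.Adj a b := by
  have hvu : ¬ v = u := fun h => huv h.symm
  have key : ∀ x : Fin h, x ≠ v → ((twist H K v u).Adj (v, x) (u, v) ↔ H.Adj v x) := by
    intro x _
    change ((v = u ∧ _) ∨ (v ≠ u ∧ v ≠ v ∧ _) ∨
      (v = v ∧ u ≠ v ∧ ((H.Adj v x ↔ H.Adj v u) ∧ H.Adj v u ∨
        ¬ (H.Adj v x ↔ H.Adj v u) ∧ K.Adj v u)) ∨ (u = v ∧ _)) ↔ H.Adj v x
    by_cases h1 : H.Adj v u <;> by_cases h2 : K.Adj v u <;> by_cases h3 : H.Adj v x <;>
      simp_all
  by_cases ha : a = v <;> by_cases hb : b = v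
  · rw [if_pos ha, if_pos hb, ha, hb]
    have h1 := (twist H K v u).loopless.irrefl (u, v)
    have h2 := H.loopless.irrefl v
    exact ⟨fun h => absurd h h1, fun h => absurd h h2⟩
  · rw [if_pos ha, if_neg hb, SimpleGraph.adj_comm, key b hb, ha]
  · rw [if_neg ha, if_pos hb, key a ha, hb, SimpleGraph.adj_comm]
  · rw [if_neg ha, if_neg hb]
    change ((v = v ∧ H.Adj a b) ∨ (v ≠ v ∧ _) ∨ (v = v ∧ v ≠ v ∧ _) ∨ (v = v ∧ v ≠ v ∧ _)) ↔ _
    constructor
    · rintro (h1 | h1 | h1 | h1)
      · exact h1.2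
      · exact absurd rfl h1.1
      · exact absurd h1.1 h1.2.1
      · exact absurd h1.1 h1.2.1
    · intro h1
      exact Or.inl ⟨rfl, h1⟩

open Classical in
noncomputable def extraEmb (H K : SimpleGraph (Fin h)) (v u : Fin h) (huv : u ≠ v)
    (hu : ¬ (K.Adj v u ↔ H.Adj v u)) : H ↪g twist H K v u where
  toFun x := if x = v then (u, v) else (v, x)
  inj' := by
    intro a b hab
    by_cases ha : a = v <;> by_cases hb : b = v
    · rw [ha, hb]
    · simp only [ha, hb, if_true, if_false] at hab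
      exact absurd (congrArg Prod.fst hab) huv
    · simp only [ha, hb, if_true, if_false] at hab
      exact absurd (congrArg Prod.fst hab).symm huv
    · simp only [ha, hb, if_false] at hab
      exact congrArg Prod.snd hab
  map_rel_iff' := by
    intro a b
    exact extra_adj huv hu a b

theorem copies_twist (hh : 3 ≤ h) (hK : ∀ x y, x ≠ v → y ≠ v → (K.Adj x y ↔ H.Adj x y))
    (e : K ≃g H) (huv : u ≠ v) (hu : ¬ (K.Adj v u ↔ H.Adj v u)) :
    h ^ h + h + 1 ≤ copies H (twist H K v u) := by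
  classical
  have hc : h ^ h + h + 1 = Nat.card (((Fin h → Fin h) ⊕ Fin h) ⊕ Unit) := by
    rw [Nat.card_sum, Nat.card_sum, Nat.card_fun]
    simp
  rw [hc]
  -- the transversals
  have htr : ∀ f : Fin h → Fin h, ∃ φ : H ↪g twist H K v u,
      Set.range φ = Set.range fun i => (i, f i) := by
    intro f
    by_cases hf : (H.Adj v (f v) ↔ H.Adj v u)
    · refine ⟨⟨⟨fun i => (i, f i), fun a b hab => congrArg Prod.fst hab⟩, ?_⟩, rfl⟩
      intro a b
      exact twist_first f hf a b
    · let ψ : K ↪g twist H K v u :=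
        ⟨⟨fun i => (i, f i), fun a b hab => congrArg Prod.fst hab⟩, by
          intro a b
          exact twist_second hK f hf a b⟩
      refine ⟨ψ.comp e.symm.toEmbedding, ?_⟩
      ext x
      constructor
      · rintro ⟨a, rfl⟩
        exact ⟨e.symm a, rfl⟩
      · rintro ⟨a, rfl⟩
        refine ⟨e a, ?_⟩
        change ψ (e.symm (e a)) = _
        rw [e.symm_apply_apply]
        rfl
  choose φ hφ using htr
  refine le_copies H (twist H K v u) (fun p => match p with
    | Sum.inl (Sum.inl f) => φ f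
    | Sum.inl (Sum.inr i) => innerEmb H K v u i
    | Sum.inr _ => extraEmb H K v u huv hu) ?_
  -- the first projections of the three sorts of copies
  have p1 : ∀ f, Prod.fst '' Set.range (φ f) = Set.univ := by
    intro f
    rw [hφ f, ← Set.range_comp]
    exact Set.range_eq_univ.2 fun x => ⟨x, rfl⟩
  have p2 : ∀ i, Prod.fst '' Set.range (innerEmb H K v u i) = {i} := by
    intro i
    ext x
    constructor
    · rintro ⟨_, ⟨a, rfl⟩, rfl⟩
      rfl
    · rintro rfl
      exact ⟨(x, x), ⟨x, rfl⟩, rfl⟩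
  have p3 : Prod.fst '' Set.range (extraEmb H K v u huv hu) = {u, v} := by
    ext x
    constructor
    · rintro ⟨_, ⟨a, rfl⟩, rfl⟩
      change (if a = v then (u, v) else (v, a)).1 = u ∨ (if a = v then (u, v) else (v, a)).1 = v
      by_cases ha : a = v
      · left; simp [ha]
      · right; simp [ha]
    · rintro (rfl | rfl)
      · refine ⟨_, ⟨v, rfl⟩, ?_⟩
        change (if v = v then (x, v) else (v, v)).1 = x
        simp
      · refine ⟨_, ⟨u, rfl⟩, ?_⟩
        change (if u = x then (u, x) else (x, u)).1 = x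
        simp [huv]
  -- three different elements
  have hne1 : (Set.univ : Set (Fin h)) ≠ {u, v} := by
    intro h1
    have h2 : Nat.card (Set.univ : Set (Fin h)) = Nat.card ({u, v} : Set (Fin h)) := by rw [h1]
    have h3 : Nat.card ({u, v} : Set (Fin h)) ≤ 2 := by
      rw [Nat.card_coe_set_eq]
      have := Set.ncard_insert_le u ({v} : Set (Fin h))
      rwa [Set.ncard_singleton] at this
    rw [Nat.card_coe_set_eq, Set.ncard_univ, Nat.card_eq_fintype_card, Fintype.card_fin] at h2
    omega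
  have hne2 : ∀ i : Fin h, (Set.univ : Set (Fin h)) ≠ {i} := by
    intro i h1
    have h2 : Nat.card (Set.univ : Set (Fin h)) = Nat.card ({i} : Set (Fin h)) := by rw [h1]
    rw [Nat.card_coe_set_eq, Set.ncard_univ, Nat.card_eq_fintype_card, Fintype.card_fin,
      Nat.card_coe_set_eq, Set.ncard_singleton] at h2
    omega
  have hne3 : ∀ i : Fin h, ({i} : Set (Fin h)) ≠ {u, v} := by
    intro i h1
    have hu' : u ∈ ({i} : Set (Fin h)) := by rw [h1]; exact Or.inl rfl
    have hv' : v ∈ ({i} : Set (Fin h)) := by rw [h1]; exact Or.inr rfl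
    exact huv (hu'.trans hv'.symm)
  have q1 : ∀ f g, Set.range (φ f) = Set.range (φ g) → f = g := by
    intro f g hfg
    funext x
    rw [hφ, hφ] at hfg
    have h3 : (x, f x) ∈ Set.range fun i => (i, g i) := by rw [← hfg]; exact ⟨x, rfl⟩
    obtain ⟨w, hw⟩ := h3
    have h4 : w = x := congrArg Prod.fst hw
    have h5 : g w = f x := congrArg Prod.snd hw
    rw [h4] at h5
    exact h5.symm
  rintro ((f | i) | s) ((g | j) | t) hST
  · change Set.range (φ f) = Set.range (φ g) at hST
    rw [q1 f g hST]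
  · exfalso
    change Set.range (φ f) = Set.range (innerEmb H K v u j) at hST
    have h2 := congrArg (fun X => Prod.fst '' X) hST
    simp only [p1, p2] at h2
    exact hne2 _ h2
  · exfalso
    change Set.range (φ f) = Set.range (extraEmb H K v u huv hu) at hST
    have h2 := congrArg (fun X => Prod.fst '' X) hST
    simp only [p1, p3] at h2
    exact hne1 h2
  · exfalso
    change Set.range (innerEmb H K v u i) = Set.range (φ g) at hST
    have h2 := congrArg (fun X => Prod.fst '' X) hST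
    simp only [p1, p2] at h2
    exact hne2 _ h2.symm
  · change Set.range (innerEmb H K v u i) = Set.range (innerEmb H K v u j) at hST
    have h2 := congrArg (fun X => Prod.fst '' X) hST
    simp only [p2] at h2
    rw [Set.singleton_eq_singleton_iff.1 h2]
  · exfalso
    change Set.range (innerEmb H K v u i) = Set.range (extraEmb H K v u huv hu) at hST
    have h2 := congrArg (fun X => Prod.fst '' X) hST
    simp only [p2, p3] at h2
    exact hne3 _ h2
  · exfalso
    change Set.range (extraEmb H K v u huv hu) = Set.range (φ g) at hST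
    have h2 := congrArg (fun X => Prod.fst '' X) hST
    simp only [p1, p3] at h2
    exact hne1 h2.symm
  · exfalso
    change Set.range (extraEmb H K v u huv hu) = Set.range (innerEmb H K v u j) at hST
    have h2 := congrArg (fun X => Prod.fst '' X) hST
    simp only [p2, p3] at h2
    exact hne3 _ h2.symm
  · rfl

/-- **Unique extension.** If `H` is in the family, `K` differs from `H` only in the neighbourhood
of the vertex `v`, and `K` is isomorphic to `H`, then `K = H`. -/
theorem unique_ext (hh : 3 ≤ h) (hH : Member H) (v : Fin h) (K : SimpleGraph (Fin h))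
    (hK : ∀ x y, x ≠ v → y ≠ v → (K.Adj x y ↔ H.Adj x y)) (e : K ≃g H) : K = H := by
  by_contra hne
  have h1 : ∃ u, u ≠ v ∧ ¬ (K.Adj v u ↔ H.Adj v u) := by
    by_contra hcon
    push Not at hcon
    apply hne
    ext x y
    by_cases hx : x = v
    · by_cases hy : y = v
      · subst hx; subst hy; simp
      · rw [hx]; exact hcon y hy
    · by_cases hy : y = v
      · rw [hy, K.adj_comm, H.adj_comm]; exact hcon x hx
      · exact hK x y hx hy
  obtain ⟨u, huv, hu⟩ := h1
  have h2 := copies_twist hh hK e huv hu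
  have hcard : Fintype.card (Fin h × Fin h) = h ^ 2 := by
    rw [Fintype.card_prod, Fintype.card_fin]; ring
  have h3 := basic (by omega) hH (twist H K v u) (by rw [hcard]; nlinarith)
  rw [hcard] at h3
  have h4 := (Nat.mul_le_mul_right (h ^ h - h) h2).trans h3
  have n1 : h < h ^ h := by
    calc h = h ^ 1 := (pow_one h).symm
      _ < h ^ h := Nat.pow_lt_pow_right (by omega) (by omega)
  have n2 : h ^ 2 ≤ (h ^ 2) ^ h := Nat.le_self_pow (by omega) _
  have n3 : (h ^ 2) ^ h = h ^ h * h ^ h := by rw [← pow_mul, ← pow_add]; ring_nf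
  rw [n3] at h4 n2
  obtain ⟨k, hk⟩ : ∃ k, h ^ h = h + k := ⟨h ^ h - h, by omega⟩
  rw [hk] at h4 n2 n1
  have e1 : h + k - h = k := by omega
  rw [e1] at h4
  have e2 : (h + k) * (h + k) - h ^ 2 = (h + k + h) * k := by
    have : (h + k) * (h + k) = h ^ 2 + (h + k + h) * k := by ring
    omega
  rw [e2] at h4
  have h5 : (h + k + h) * k < (h + k + h + 1) * k := by
    apply Nat.mul_lt_mul_of_pos_right (by omega)
    omega
  omega

end

end Pool.Agent.H68.Ind
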