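import Pool.Agent.H68.Ind.Necessary
import Pool.Agent.H68.Ind.Unique

/-!
A finite check that classifies the graphs on `h` vertices which have no nontrivial module and no
small graph violating the basic inequality.
-/

set_option autoImplicit false

open Filter

namespace Pool.Agent.H68.Ind

/-! ### codes of graphs -/

def eid (a b : ℕ) : ℕ := if a < b then b * (b - 1) / 2 + a else a * (a - 1) / 2 + b

def adjB (m a b : ℕ) : Bool := (a != b) && m.testBit (eid a b)

theorem eid_comm (a b : ℕ) : eid a b = eid b a := by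
  unfold eid
  rcases lt_trichotomy a b with h | h | h
  · rw [if_pos h, if_neg (by omega)]
  · subst h; rfl
  · rw [if_neg (by omega), if_pos h]

theorem adjB_comm (m a b : ℕ) : adjB m a b = adjB m b a := by
  unfold adjB
  rw [eid_comm a b, bne_comm]

theorem adjB_self (m a : ℕ) : adjB m a a = false := by
  unfold adjB
  simp

/-- the graph with code `m` -/
def graphOf (h m : ℕ) : SimpleGraph (Fin h) where
  Adj a b := adjB m a.1 b.1 = true
  symm := ⟨by
    intro a b hab
    rw [adjB_comm]
    exact hab⟩
  loopless := ⟨by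
    intro a ha
    rw [adjB_self] at ha
    exact absurd ha (by simp)⟩

def enc (f : ℕ → ℕ → Bool) : List (ℕ × ℕ) → ℕ
  | [] => 0
  | p :: l => 2 * enc f l + (f p.1 p.2).toNat

theorem enc_lt (f : ℕ → ℕ → Bool) (l : List (ℕ × ℕ)) : enc f l < 2 ^ l.length := by
  induction l with
  | nil => simp [enc]
  | cons p l ih =>
    rw [enc, List.length_cons, pow_succ]
    have : (f p.1 p.2).toNat ≤ 1 := Bool.toNat_le _
    omega

theorem enc_testBit (f : ℕ → ℕ → Bool) (l : List (ℕ × ℕ)) (k : ℕ) (p : ℕ × ℕ)
    (hk : l[k]? = some p) : (enc f l).testBit k = f p.1 p.2 := by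
  induction l generalizing k with
  | nil => simp at hk
  | cons q l ih =>
    rw [enc]
    cases k with
    | zero =>
      simp only [List.getElem?_cons_zero, Option.some.injEq] at hk
      rw [← hk]
      rw [Nat.testBit_zero]
      cases f q.1 q.2 <;> simp
    | succ k =>
      simp only [List.getElem?_cons_succ] at hk
      rw [← ih k hk, Nat.testBit_succ]
      congr 1
      have : (f q.1 q.2).toNat ≤ 1 := Bool.toNat_le _
      omega

/-- `l` lists the pairs `(a, b)`, `a < b < h`, in the order of their codes -/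
def okPairs (h : ℕ) (l : List (ℕ × ℕ)) : Bool :=
  (List.range h).all fun b => (List.range b).all fun a => decide (l[eid a b]? = some (a, b))

theorem okPairs_spec {h : ℕ} {l : List (ℕ × ℕ)} (hl : okPairs h l = true) {a b : ℕ}
    (hab : a < b) (hb : b < h) : l[eid a b]? = some (a, b) := by
  unfold okPairs at hl
  rw [List.all_eq_true] at hl
  have h1 := hl b (List.mem_range.2 hb)
  rw [List.all_eq_true] at h1
  have h2 := h1 a (List.mem_range.2 hab)
  simpa using h2

theorem adjB_enc {h : ℕ} {l : List (ℕ × ℕ)} (hl : okPairs h l = true) (f : ℕ → ℕ → Bool)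
    (hf : ∀ a b, f a b = f b a) {a b : ℕ} (hab : a ≠ b) (ha : a < h) (hb : b < h) :
    adjB (enc f l) a b = f a b := by
  have hne : (a != b) = true := by simpa using hab
  unfold adjB
  rw [hne, Bool.true_and]
  rcases lt_or_gt_of_ne hab with h1 | h1
  · rw [enc_testBit f l _ _ (okPairs_spec hl h1 hb)]
  · rw [eid_comm, enc_testBit f l _ _ (okPairs_spec hl h1 ha)]
    exact hf b a

open Classical in
theorem exists_code {h : ℕ} {l : List (ℕ × ℕ)} (hl : okPairs h l = true)
    (H : SimpleGraph (Fin h)) : ∃ m < 2 ^ l.length, H = graphOf h m := by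
  let f : ℕ → ℕ → Bool := fun a b => decide (∃ (ha : a < h) (hb : b < h), H.Adj ⟨a, ha⟩ ⟨b, hb⟩)
  have hf : ∀ a b, f a b = f b a := by
    intro a b
    simp only [f, decide_eq_decide]
    constructor
    · rintro ⟨ha, hb, h1⟩; exact ⟨hb, ha, h1.symm⟩
    · rintro ⟨ha, hb, h1⟩; exact ⟨hb, ha, h1.symm⟩
  refine ⟨enc f l, enc_lt f l, ?_⟩
  ext a b
  change H.Adj a b ↔ adjB (enc f l) a.1 b.1 = true
  by_cases hab : a = b
  · subst hab
    rw [adjB_self]
    simp
  · rw [adjB_enc hl f hf (fun h1 => hab (Fin.ext h1)) a.2 b.2]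
    simp only [f, decide_eq_true_eq]
    constructor
    · intro h1; exact ⟨a.2, b.2, h1⟩
    · rintro ⟨_, _, h1⟩; exact h1

/-! ### transfer along isomorphisms -/

theorem copies_congr {h : ℕ} {H H' : SimpleGraph (Fin h)} (e : H ≃g H') {V : Type}
    (G : SimpleGraph V) : copies H G = copies H' G := by
  unfold copies
  congr 1
  ext S
  constructor
  · rintro ⟨h1, ⟨f⟩⟩
    exact ⟨h1, ⟨f.trans e⟩⟩
  · rintro ⟨h1, ⟨f⟩⟩
    exact ⟨h1, ⟨f.trans e.symm⟩⟩

theorem member_congr {h : ℕ} {H H' : SimpleGraph (Fin h)} (e : H ≃g H') (hH : Member H) :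
    Member H' := by
  have h1 : ∀ n, maxCopies H n = maxCopies H' n := by
    intro n
    unfold maxCopies
    congr 1
    funext G
    exact copies_congr e G
  unfold Member at hH ⊢
  simpa only [h1] using hH

/-! ### certificates -/

def isEmb (h g mH mG : ℕ) (φ : List ℕ) : Bool :=
  (List.range h).all fun i => decide (φ.getD i 0 < g) && (List.range h).all fun j =>
    (decide (i = j) || (φ.getD i 0 != φ.getD j 0)) &&
      (adjB mH i j == adjB mG (φ.getD i 0) (φ.getD j 0))

theorem isEmb_spec {h g mH mG : ℕ} {φ : List ℕ} (hφ : isEmb h g mH mG φ = true) :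
    (∀ i < h, φ.getD i 0 < g) ∧ (∀ i < h, ∀ j < h, i ≠ j → φ.getD i 0 ≠ φ.getD j 0) ∧
      (∀ i < h, ∀ j < h, adjB mH i j = adjB mG (φ.getD i 0) (φ.getD j 0)) := by
  unfold isEmb at hφ
  simp only [List.all_eq_true, List.mem_range, Bool.and_eq_true, decide_eq_true_eq,
    Bool.or_eq_true, bne_iff_ne, ne_eq, beq_iff_eq] at hφ
  refine ⟨fun i hi => (hφ i hi).1, fun i hi j hj hij => ?_, fun i hi j hj => ((hφ i hi).2 j hj).2⟩
  rcases ((hφ i hi).2 j hj).1 with h1 | h1
  · exact absurd h1 hij
  · exact h1

def embOf {h g mH mG : ℕ} (φ : List ℕ) (hφ : isEmb h g mH mG φ = true) :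
    graphOf h mH ↪g graphOf g mG where
  toFun i := ⟨φ.getD i.1 0, (isEmb_spec hφ).1 i.1 i.2⟩
  inj' := by
    intro i j hij
    by_contra hne
    exact (isEmb_spec hφ).2.1 i.1 i.2 j.1 j.2 (fun h1 => hne (Fin.ext h1)) (congrArg Fin.val hij)
  map_rel_iff' := by
    intro i j
    change adjB mG (φ.getD i.1 0) (φ.getD j.1 0) = true ↔ adjB mH i.1 j.1 = true
    rw [(isEmb_spec hφ).2.2 i.1 i.2 j.1 j.2]

/-! ### the code of a graph whose last vertex is adjacent to `0, …, d - 1` -/

theorem eid_top {n a : ℕ} (ha : a < n) : eid a n = n * (n - 1) / 2 + a := by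
  unfold eid
  rw [if_pos ha]

/-- the code of the graph whose last vertex is adjacent to `0, …, d - 1` -/
def topCode (L d low : ℕ) : ℕ := 2 ^ L * (2 ^ d - 1) + low

theorem topCode_low {L d low j : ℕ} (hl : low < 2 ^ L) (hj : j < L) :
    (topCode L d low).testBit j = low.testBit j := by
  unfold topCode
  rw [Nat.testBit_two_pow_mul_add _ hl, if_pos hj]

theorem topCode_top {L d low a : ℕ} (hl : low < 2 ^ L) :
    (topCode L d low).testBit (L + a) = decide (a < d) := by
  unfold topCode
  rw [Nat.testBit_two_pow_mul_add _ hl, if_neg (by omega), Nat.testBit_two_pow_sub_one]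
  congr 1
  simp

theorem adjB_lt {m a b : ℕ} (hab : a < b) : adjB m a b = m.testBit (eid a b) := by
  unfold adjB
  have h1 : (a != b) = true := by rw [bne_iff_ne]; omega
  rw [h1, Bool.true_and]

/-! ### truth tables

A boolean function of `L` variables is a number with `2 ^ L` bits. -/

def ones (L : ℕ) : ℕ := 2 ^ 2 ^ L - 1

theorem ones_testBit (L m : ℕ) : (ones L).testBit m = decide (m < 2 ^ L) := by
  unfold ones
  rw [Nat.testBit_two_pow_sub_one]

/-- the truth table of the variable number `i` -/
noncomputable def varT (i : ℕ) : ℕ → ℕ :=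
  Nat.rec (motive := fun _ => ℕ) 0 fun k X =>
    Bool.rec (Nat.lor X (Nat.shiftLeft X (Nat.pow 2 k))) (Nat.shiftLeft (ones k) (Nat.pow 2 k))
      (Nat.beq i k)

theorem varT_succ_self (k : ℕ) : varT k (k + 1) = ones k <<< 2 ^ k := by
  change (Bool.rec _ _ (Nat.beq k k) : ℕ) = _
  have : Nat.beq k k = true := Nat.beq_refl k
  rw [this]
  rfl

theorem varT_succ_ne {i k : ℕ} (h : i ≠ k) :
    varT i (k + 1) = varT i k ||| varT i k <<< 2 ^ k := by
  change (Bool.rec _ _ (Nat.beq i k) : ℕ) = _
  have : Nat.beq i k = false := by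
    cases h1 : Nat.beq i k with
    | false => rfl
    | true => exact absurd (Nat.eq_of_beq_eq_true h1) h
  rw [this]
  rfl

theorem varT_testBit (L i : ℕ) (hi : i < L) (m : ℕ) :
    (varT i L).testBit m = (decide (m < 2 ^ L) && m.testBit i) := by
  induction L generalizing m with
  | zero => omega
  | succ k ih =>
    have hp : 2 ^ (k + 1) = 2 ^ k + 2 ^ k := by rw [pow_succ]; ring
    have hsplit : m < 2 ^ k ∨ (2 ^ k ≤ m ∧ m < 2 ^ (k + 1)) ∨ 2 ^ (k + 1) ≤ m := by omega
    by_cases hik : i = k
    · subst hik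
      rw [varT_succ_self, Nat.testBit_shiftLeft, ones_testBit]
      rcases hsplit with h1 | ⟨h1, h2⟩ | h1
      · rw [Nat.testBit_lt_two_pow h1]
        simp [h1]
      · have h3 : m.testBit i = true := by
          have h4 : m = 2 ^ i + (m - 2 ^ i) := by omega
          rw [h4, Nat.testBit_two_pow_add_eq, Nat.testBit_lt_two_pow (by omega)]
          rfl
        have h4 : m - 2 ^ i < 2 ^ i := by omega
        simp [h1, h2, h3, h4]
      · have h4 : ¬ (m - 2 ^ i < 2 ^ i) := by omega
        have h5 : ¬ (m < 2 ^ (i + 1)) := by omega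
        simp [h4, h5]
    · have hi' : i < k := by omega
      rw [varT_succ_ne hik, Nat.testBit_or, Nat.testBit_shiftLeft, ih hi', ih hi']
      rcases hsplit with h1 | ⟨h1, h2⟩ | h1
      · have h3 : m < 2 ^ (k + 1) := by omega
        have h4 : ¬ (2 ^ k ≤ m) := by omega
        simp [h1, h3, h4]
      · have h3 : m.testBit i = (m - 2 ^ k).testBit i := by
          have h4 : m = 2 ^ k + (m - 2 ^ k) := by omega
          rw [h4, Nat.testBit_two_pow_add_gt hi']
          congr 1
          omega
        have h4 : m - 2 ^ k < 2 ^ k := by omega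
        have h5 : ¬ (m < 2 ^ k) := by omega
        simp [h1, h2, h3, h4, h5]
      · have h4 : ¬ (m - 2 ^ k < 2 ^ k) := by omega
        have h5 : ¬ (m < 2 ^ (k + 1)) := by omega
        have h6 : ¬ (m < 2 ^ k) := by omega
        simp [h4, h5, h6]

/-- the truth table of the bit number `e` of `topCode L d low`, as a function of `low` -/
noncomputable def litT (L d e : ℕ) : ℕ :=
  if e < L then varT e L else if e - L < d then ones L else 0

theorem litT_testBit {L d e low : ℕ} (hl : low < 2 ^ L) :
    (litT L d e).testBit low = (topCode L d low).testBit e := by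
  unfold litT
  by_cases h1 : e < L
  · rw [if_pos h1, varT_testBit L e h1, topCode_low hl h1, decide_eq_true hl, Bool.true_and]
  · rw [if_neg h1]
    have h2 : e = L + (e - L) := by omega
    rw [h2, topCode_top hl]
    have h3 : L + (e - L) - L = e - L := by omega
    rw [h3]
    by_cases h4 : e - L < d
    · rw [if_pos h4, ones_testBit, decide_eq_true hl, decide_eq_true h4]
    · rw [if_neg h4, Nat.zero_testBit, decide_eq_false h4]

noncomputable def allT (L d : ℕ) (es : List ℕ) : ℕ :=
  List.rec (motive := fun _ => ℕ) (ones L) (fun e _ ih => Nat.land (litT L d e) ih) es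

noncomputable def noneT (L d : ℕ) (es : List ℕ) : ℕ :=
  List.rec (motive := fun _ => ℕ) (ones L)
    (fun e _ ih => Nat.land (Nat.xor (litT L d e) (ones L)) ih) es

theorem allT_spec {L d low : ℕ} (hl : low < 2 ^ L) (es : List ℕ)
    (h : (allT L d es).testBit low = true) : ∀ e ∈ es, (topCode L d low).testBit e = true := by
  induction es with
  | nil => intro e he; exact absurd he (by simp)
  | cons x es ih =>
    change ((litT L d x) &&& (allT L d es)).testBit low = true at h
    rw [Nat.testBit_and, Bool.and_eq_true, litT_testBit hl] at h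
    intro e he
    rcases List.mem_cons.1 he with h1 | h1
    · rw [h1]; exact h.1
    · exact ih h.2 e h1

theorem noneT_spec {L d low : ℕ} (hl : low < 2 ^ L) (es : List ℕ)
    (h : (noneT L d es).testBit low = true) : ∀ e ∈ es, (topCode L d low).testBit e = false := by
  induction es with
  | nil => intro e he; exact absurd he (by simp)
  | cons x es ih =>
    change (((litT L d x) ^^^ (ones L)) &&& (noneT L d es)).testBit low = true at h
    rw [Nat.testBit_and, Bool.and_eq_true, Nat.testBit_xor, litT_testBit hl, ones_testBit,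
      decide_eq_true hl] at h
    intro e he
    rcases List.mem_cons.1 he with h1 | h1
    · rw [h1]
      have := h.1
      cases h2 : (topCode L d low).testBit x with
      | false => rfl
      | true => rw [h2] at this; exact absurd this (by simp)
    · exact ih h.2 e h1

/-! ### modules -/

/-- every entry is a set `S`, `2 ≤ |S| < h`, with, for every vertex `v` outside, a list containing
all the edges from `v` to `S` -/
def okTab (h : ℕ) (tab : List (List ℕ × List (ℕ × List ℕ))) : Bool :=
  tab.all fun e => decide (e.1.Nodup) && decide (2 ≤ e.1.length) && decide (e.1.length < h) &&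
    e.1.all (fun a => decide (a < h)) &&
    (List.range h).all fun v => e.1.contains v || e.2.any fun p => (p.1 == v) &&
      e.1.all fun a => p.2.contains (eid v a)

noncomputable def entT (L d : ℕ) (l : List (ℕ × List ℕ)) : ℕ :=
  List.rec (motive := fun _ => ℕ) (ones L)
    (fun p _ ih => Nat.land (Nat.lor (allT L d p.2) (noneT L d p.2)) ih) l

noncomputable def modT (L d : ℕ) (tab : List (List ℕ × List (ℕ × List ℕ))) : ℕ :=
  List.rec (motive := fun _ => ℕ) 0 (fun e _ ih => Nat.lor (entT L d e.2) ih) tab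

theorem entT_spec {L d low : ℕ} (hl : low < 2 ^ L) (l : List (ℕ × List ℕ))
    (h : (entT L d l).testBit low = true) :
    ∀ p ∈ l, (∀ e ∈ p.2, (topCode L d low).testBit e = true) ∨
      (∀ e ∈ p.2, (topCode L d low).testBit e = false) := by
  induction l with
  | nil => intro e he; exact absurd he (by simp)
  | cons x l ih =>
    change (((allT L d x.2) ||| (noneT L d x.2)) &&& (entT L d l)).testBit low = true at h
    rw [Nat.testBit_and, Bool.and_eq_true, Nat.testBit_or, Bool.or_eq_true] at h
    intro p hp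
    rcases List.mem_cons.1 hp with h1 | h1
    · rw [h1]
      rcases h.1 with h2 | h2
      · exact Or.inl (allT_spec hl _ h2)
      · exact Or.inr (noneT_spec hl _ h2)
    · exact ih h.2 p h1

theorem modT_spec {L d low : ℕ} (tab : List (List ℕ × List (ℕ × List ℕ)))
    (h : (modT L d tab).testBit low = true) : ∃ e ∈ tab, (entT L d e.2).testBit low = true := by
  induction tab with
  | nil =>
    change (0 : ℕ).testBit low = true at h
    simp at h
  | cons x l ih =>
    change ((entT L d x.2) ||| (modT L d l)).testBit low = true at h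
    rw [Nat.testBit_or, Bool.or_eq_true] at h
    rcases h with h | h
    · exact ⟨x, List.mem_cons_self, h⟩
    · obtain ⟨e, he, h2⟩ := ih h
      exact ⟨e, List.mem_cons_of_mem _ he, h2⟩

theorem not_member_of_modT {h L d low : ℕ} {tab : List (List ℕ × List (ℕ × List ℕ))}
    (ht : okTab h tab = true) (hl : low < 2 ^ L) (hm : (modT L d tab).testBit low = true) :
    ¬ Member (graphOf h (topCode L d low)) := by
  intro hM
  obtain ⟨e, he, hm⟩ := modT_spec tab hm
  have hm := entT_spec hl _ hm
  unfold okTab at ht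
  rw [List.all_eq_true] at ht
  have ht1 := ht e he
  simp only [Bool.and_eq_true, decide_eq_true_eq, List.all_eq_true, List.mem_range,
    Bool.or_eq_true, List.any_eq_true, beq_iff_eq, List.contains_iff_mem] at ht1
  obtain ⟨⟨⟨⟨h1, h2⟩, h3⟩, h4⟩, h5⟩ := ht1
  let M : Finset (Fin h) := Finset.univ.filter fun v => v.1 ∈ e.1
  have hMmem : ∀ v : Fin h, v ∈ M ↔ v.1 ∈ e.1 := by intro v; simp [M]
  have hcard : M.card = e.1.length := by
    rw [← List.toFinset_card_of_nodup h1, ← Finset.card_map Fin.valEmbedding]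
    congr 1
    ext x
    simp only [Finset.mem_map, Fin.valEmbedding_apply, List.mem_toFinset]
    constructor
    · rintro ⟨v, hv, rfl⟩
      exact (hMmem v).1 hv
    · intro hx
      exact ⟨⟨x, h4 x hx⟩, (hMmem _).2 hx, rfl⟩
  refine no_module hM M (by omega) (by omega) ?_
  intro v hv a ha b hb
  rw [hMmem] at hv ha hb
  rcases h5 v.1 v.2 with h6 | ⟨p, hp, hpv, hpm⟩
  · exact absurd h6 hv
  · have hbit : ∀ x : Fin h, x.1 ∈ e.1 → ((graphOf h (topCode L d low)).Adj v x ↔
        (topCode L d low).testBit (eid v.1 x.1) = true) := by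
      intro x hx
      change adjB _ v.1 x.1 = true ↔ _
      unfold adjB
      have hne : (v.1 != x.1) = true := by
        rw [bne_iff_ne]
        intro h7
        exact hv (h7 ▸ hx)
      rw [hne, Bool.true_and]
    rw [hbit a ha, hbit b hb]
    have ka := hpm a.1 ha
    have kb := hpm b.1 hb
    rcases hm p hp with h8 | h8
    · rw [h8 _ ka, h8 _ kb]
    · rw [h8 _ ka, h8 _ kb]

/-! ### the table of isomorphic copies

A permutation `φ` is a number, whose digits in base `8` are the values; a graph is also a number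
`T` whose bit `8 x + y` is the adjacency of `x` and `y`. -/

noncomputable def dig (φ a : ℕ) : ℕ := Nat.land 7 (Nat.shiftRight φ (Nat.mul 3 a))

/-- the bits of `T` at the positions `l`, as a number -/
noncomputable def pick (T : ℕ) (l : List ℕ) : ℕ :=
  List.rec (motive := fun _ => ℕ) 0
    (fun k _ ih => Nat.add (Nat.mul 2 ih) (Nat.land 1 (Nat.shiftRight T k))) l

/-- the positions at which the image under `φ` is read off -/
noncomputable def posList (P : List (ℕ × ℕ)) (φ : ℕ) : List ℕ :=
  P.map fun p => 8 * dig φ p.1 + dig φ p.2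

noncomputable def img (P : List (ℕ × ℕ)) (T φ : ℕ) : ℕ := pick T (posList P φ)

/-- `T` is the table of the graph with code `r` -/
def okT (h T r : ℕ) : Bool :=
  (List.range h).all fun a => (List.range h).all fun b => T.testBit (8 * a + b) == adjB r a b

/-- `φ` is a permutation of `0, …, n` which fixes `n` and preserves `{0, …, d - 1}` -/
def okPerm (n d : ℕ) (φ : ℕ) : Bool :=
  decide ((φ >>> (3 * n)) % 8 = n) && (List.range n).all fun a =>
    decide ((φ >>> (3 * a)) % 8 < n) && (decide (a < d) == decide ((φ >>> (3 * a)) % 8 < d)) &&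
      (List.range n).all fun b =>
        decide (a = b) || ((φ >>> (3 * a)) % 8 != (φ >>> (3 * b)) % 8)

theorem dig_eq (φ a : ℕ) : dig φ a = (φ >>> (3 * a)) % 8 := by
  change 7 &&& (φ >>> (3 * a)) = _
  rw [Nat.and_comm]
  exact Nat.and_two_pow_sub_one_eq_mod (φ >>> (3 * a)) 3

theorem bit_eq (T k : ℕ) : Nat.land 1 (Nat.shiftRight T k) = (T.testBit k).toNat := by
  change 1 &&& (T >>> k) = _
  rw [Nat.testBit_eq_decide_div_mod_eq, Nat.shiftRight_eq_div_pow, Nat.and_comm,
    Nat.and_one_is_mod]
  rcases Nat.mod_two_eq_zero_or_one (T / 2 ^ k) with h1 | h1 <;> rw [h1] <;> rfl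

theorem img_eq (P : List (ℕ × ℕ)) (T φ : ℕ) :
    img P T φ = enc (fun a b => T.testBit (8 * dig φ a + dig φ b)) P := by
  induction P with
  | nil => rfl
  | cons p l ih =>
    rw [enc, ← ih, ← bit_eq]
    rfl

noncomputable def buildB (poss : List (List ℕ)) (Ts : List ℕ) : ℕ :=
  List.rec (motive := fun _ => ℕ) 0 (fun T _ ihT =>
    List.rec (motive := fun _ => ℕ) ihT (fun l _ ih =>
      Nat.lor (Nat.shiftLeft 1 (pick T l)) ih) poss) Ts

theorem buildB_spec {poss : List (List ℕ)} {Ts : List ℕ} {m : ℕ}
    (hm : (buildB poss Ts).testBit m = true) : ∃ T ∈ Ts, ∃ l ∈ poss, pick T l = m := by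
  induction Ts with
  | nil =>
    change (0 : ℕ).testBit m = true at hm
    simp at hm
  | cons T L ihT =>
    have key : ∀ ps : List (List ℕ), (List.rec (motive := fun _ => ℕ) (buildB poss L) (fun l _ ih =>
        Nat.lor (Nat.shiftLeft 1 (pick T l)) ih) ps : ℕ).testBit m = true →
        (buildB poss L).testBit m = true ∨ ∃ l ∈ ps, pick T l = m := by
      intro ps
      induction ps with
      | nil => intro h1; exact Or.inl h1
      | cons l ps ih =>
        intro h1
        change ((1 <<< pick T l) ||| (List.rec (motive := fun _ => ℕ) (buildB poss L)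
          (fun l _ ih => Nat.lor (Nat.shiftLeft 1 (pick T l)) ih) ps : ℕ)).testBit m = true at h1
        rw [Nat.testBit_or, Bool.or_eq_true] at h1
        rcases h1 with h1 | h1
        · right
          refine ⟨l, List.mem_cons_self, ?_⟩
          rw [Nat.one_shiftLeft, Nat.testBit_two_pow] at h1
          simpa using h1
        · rcases ih h1 with h2 | ⟨ψ, hψ, h2⟩
          · exact Or.inl h2
          · exact Or.inr ⟨ψ, List.mem_cons_of_mem _ hψ, h2⟩
    rcases key poss hm with h1 | ⟨φ, hφ, h1⟩
    · obtain ⟨T', hT', φ, hφ, h2⟩ := ihT h1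
      exact ⟨T', List.mem_cons_of_mem _ hT', φ, hφ, h2⟩
    · exact ⟨T, List.mem_cons_self, φ, hφ, h1⟩

theorem iso_of_img {n d : ℕ} {P : List (ℕ × ℕ)} (hP : okPairs n P = true)
    (hL : P.length = n * (n - 1) / 2) {lr T φ low : ℕ} (hlr : lr < 2 ^ P.length)
    (hT : okT (n + 1) T (topCode P.length d lr) = true) (hφ : okPerm n d φ = true)
    (hm : img P T φ = low) :
    Nonempty (graphOf (n + 1) (topCode P.length d low) ≃g
      graphOf (n + 1) (topCode P.length d lr)) := by
  unfold okPerm at hφ
  simp only [List.all_eq_true, List.mem_range, Bool.and_eq_true, decide_eq_true_eq,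
    Bool.or_eq_true, bne_iff_ne, ne_eq, ← dig_eq, beq_iff_eq, decide_eq_decide] at hφ
  obtain ⟨hφn, hφ⟩ := hφ
  unfold okT at hT
  simp only [List.all_eq_true, List.mem_range, beq_iff_eq] at hT
  have hlt : ∀ i < n, dig φ i < n := fun i hi => (hφ i hi).1.1
  have hd : ∀ i < n, (i < d ↔ dig φ i < d) := fun i hi => (hφ i hi).1.2
  have hinj : ∀ i < n, ∀ j < n, dig φ i = dig φ j → i = j := by
    intro i hi j hj hij
    rcases (hφ i hi).2 j hj with h1 | h1
    · exact h1
    · exact absurd hij h1
  have hlt' : ∀ i < n + 1, dig φ i < n + 1 := by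
    intro i hi
    rcases Nat.lt_succ_iff_lt_or_eq.1 hi with h1 | h1
    · have := hlt i h1; omega
    · rw [h1, hφn]; omega
  have hinj' : ∀ i < n + 1, ∀ j < n + 1, dig φ i = dig φ j → i = j := by
    intro i hi j hj hij
    rcases Nat.lt_succ_iff_lt_or_eq.1 hi with h1 | h1 <;>
      rcases Nat.lt_succ_iff_lt_or_eq.1 hj with h2 | h2
    · exact hinj i h1 j h2 hij
    · rw [h2, hφn] at hij
      have := hlt i h1
      omega
    · rw [h1, hφn] at hij
      have := hlt j h2
      omega
    · omega
  have hlow : low < 2 ^ P.length := by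
    rw [← hm, img_eq]
    exact enc_lt _ _
  let f : Fin (n + 1) → Fin (n + 1) := fun i => ⟨dig φ i.1, hlt' i.1 i.2⟩
  have hf : Function.Injective f := by
    intro i j hij
    exact Fin.ext (hinj' i.1 i.2 j.1 j.2 (congrArg Fin.val hij))
  have hbij : Function.Bijective f := Finite.injective_iff_bijective.1 hf
  -- the main computation
  have main : ∀ i j : ℕ, i < j → j < n + 1 → adjB (topCode P.length d low) i j =
      adjB (topCode P.length d lr) (dig φ i) (dig φ j) := by
    intro i j hij hj
    rw [adjB_lt hij]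
    rcases Nat.lt_succ_iff_lt_or_eq.1 hj with h1 | h1
    · have hs := okPairs_spec hP hij h1
      have hlen : eid i j < P.length := by
        by_contra hcon
        rw [List.getElem?_eq_none (by omega)] at hs
        exact absurd hs (by simp)
      rw [topCode_low hlow hlen, ← hm, img_eq, enc_testBit _ _ _ _ hs]
      exact hT _ (hlt' i (by omega)) _ (hlt' j hj)
    · subst h1
      rw [eid_top hij, ← hL, topCode_top hlow, hφn, adjB_lt (hlt i hij), eid_top (hlt i hij),
        ← hL, topCode_top hlr]
      rw [decide_eq_decide]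
      exact hd i hij
  refine ⟨⟨Equiv.ofBijective f hbij, ?_⟩⟩
  intro i j
  change adjB (topCode P.length d lr) (dig φ i.1) (dig φ j.1) = true ↔
    adjB (topCode P.length d low) i.1 j.1 = true
  rcases lt_trichotomy i.1 j.1 with h1 | h1 | h1
  · rw [main i.1 j.1 h1 j.2]
  · rw [h1, adjB_self, adjB_self]
  · rw [adjB_comm, adjB_comm (topCode P.length d low), main j.1 i.1 h1 i.2]

/-! ### the classification -/

/-! ### complements -/

theorem copies_compl_le {h : ℕ} (H : SimpleGraph (Fin h)) {V : Type} [Finite V]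
    (G : SimpleGraph V) : copies H G ≤ copies Hᶜ Gᶜ := by
  classical
  rw [copies_eq]
  choose φ hφ using fun S : {S : Finset V // IsCopy H G S} => S.2
  refine le_copies Hᶜ Gᶜ (fun S => (⟨⟨φ S, (φ S).injective⟩, ?_⟩ : Hᶜ ↪g Gᶜ)) ?_
  · intro a b
    change Gᶜ.Adj (φ S a) (φ S b) ↔ Hᶜ.Adj a b
    rw [SimpleGraph.compl_adj, SimpleGraph.compl_adj, (φ S).map_adj_iff,
      (φ S).injective.ne_iff]
  · intro S T hST
    change Set.range (φ S) = Set.range (φ T) at hST
    rw [hφ, hφ] at hST
    exact Subtype.ext (Finset.coe_injective hST)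

theorem member_compl {h : ℕ} {H : SimpleGraph (Fin h)} (hH : Member H) : Member Hᶜ := by
  have h0 : ∀ (K : SimpleGraph (Fin h)) n, maxCopies K n ≤ maxCopies Kᶜ n := by
    intro K n
    obtain ⟨G, hG⟩ := exists_max K n
    rw [← hG]
    refine (copies_compl_le K G).trans ?_
    have := copies_le_max Kᶜ Gᶜ
    rwa [Fintype.card_fin] at this
  have h1 : ∀ n, maxCopies H n = maxCopies Hᶜ n := by
    intro n
    apply le_antisymm (h0 H n)
    have := h0 Hᶜ n
    rwa [compl_compl] at this
  unfold Member at hH ⊢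
  simpa only [h1] using hH

/-! ### the witness of non-uniqueness -/

def wit (h r : ℕ) (w : ℕ × ℕ × List ℕ) : Bool :=
  decide (w.1 < h) && (List.range h).all (fun x => (List.range h).all fun y =>
    x == w.1 || y == w.1 || (adjB w.2.1 x y == adjB r x y)) && isEmb h h w.2.1 r w.2.2 &&
    (List.range h).any fun x => adjB w.2.1 w.1 x != adjB r w.1 x

theorem not_member_of_wit {h r : ℕ} {w : ℕ × ℕ × List ℕ} (hh : 3 ≤ h) (hw : wit h r w = true) :
    ¬ Member (graphOf h r) := by
  intro hM
  unfold wit at hw
  simp only [Bool.and_eq_true, decide_eq_true_eq, List.all_eq_true, List.mem_range,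
    Bool.or_eq_true, beq_iff_eq, List.any_eq_true, bne_iff_ne, ne_eq] at hw
  obtain ⟨⟨⟨hv, h1⟩, h2⟩, x, hx, h3⟩ := hw
  let e := embOf w.2.2 h2
  have hbij : Function.Bijective e := Finite.injective_iff_bijective.1 e.injective
  have e' : graphOf h w.2.1 ≃g graphOf h r :=
    ⟨Equiv.ofBijective e hbij, fun {a b} => e.map_rel_iff⟩
  have h4 := unique_ext hh hM ⟨w.1, hv⟩ (graphOf h w.2.1) (fun a b ha hb => by
    change adjB w.2.1 a.1 b.1 = true ↔ adjB r a.1 b.1 = true
    rcases h1 a.1 a.2 b.1 b.2 with (h5 | h5) | h5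
    · exact absurd (Fin.ext h5) ha
    · exact absurd (Fin.ext h5) hb
    · rw [h5]) e'
  apply h3
  have h5 : (graphOf h w.2.1).Adj ⟨w.1, hv⟩ ⟨x, hx⟩ ↔ (graphOf h r).Adj ⟨w.1, hv⟩ ⟨x, hx⟩ := by
    rw [h4]
  exact Bool.eq_iff_iff.2 h5

/-! ### sorting the neighbours of the last vertex -/

theorem lower_set {N : ℕ} (S : Finset (Fin N)) (hS : ∀ a b : Fin N, a ≤ b → b ∈ S → a ∈ S)
    (a : Fin N) : a ∈ S ↔ a.1 < S.card := by
  constructor
  · intro ha
    have h1 : Finset.Iic a ⊆ S := fun b hb => hS b a (Finset.mem_Iic.1 hb) ha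
    have h2 := Finset.card_le_card h1
    rw [Fin.card_Iic] at h2
    omega
  · intro ha
    by_contra hcon
    have h1 : S ⊆ Finset.Iio a := by
      intro b hb
      rw [Finset.mem_Iio]
      by_contra h2
      exact hcon (hS a b (not_lt.1 h2) hb)
    have h2 := Finset.card_le_card h1
    rw [Fin.card_Iio] at h2
    omega

open Classical in
theorem sort_last {n : ℕ} (H : SimpleGraph (Fin (n + 1))) :
    ∃ σ : Equiv.Perm (Fin (n + 1)), σ (Fin.last n) = Fin.last n ∧
      ∀ a : Fin (n + 1), a ≠ Fin.last n → (H.Adj (σ a) (Fin.last n) ↔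
        a.1 < (Finset.univ.filter fun x => H.Adj x (Fin.last n)).card) := by
  let f : Fin (n + 1) → ℕ := fun a => if a = Fin.last n then 2 else
    if H.Adj a (Fin.last n) then 0 else 1
  let σ := Tuple.sort f
  have hmono : Monotone (f ∘ σ) := Tuple.monotone_sort f
  have f2 : ∀ a, f a = 2 ↔ a = Fin.last n := by
    intro a
    by_cases h1 : a = Fin.last n
    · simp [f, h1]
    · by_cases h2 : H.Adj a (Fin.last n) <;> simp [f, h1, h2]
  have f0 : ∀ a, f a = 0 ↔ H.Adj a (Fin.last n) := by
    intro a
    by_cases h1 : a = Fin.last n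
    · subst h1
      simp [f]
    · by_cases h2 : H.Adj a (Fin.last n) <;> simp [f, h1, h2]
  have fle : ∀ a, f a ≤ 2 := by
    intro a
    by_cases h1 : a = Fin.last n
    · simp [f, h1]
    · by_cases h2 : H.Adj a (Fin.last n) <;> simp [f, h1, h2]
  have hlast : σ (Fin.last n) = Fin.last n := by
    rw [← f2]
    apply le_antisymm (fle _)
    have h1 : f (σ (σ.symm (Fin.last n))) = 2 := by
      rw [Equiv.apply_symm_apply]
      exact (f2 _).2 rfl
    rw [← h1]
    exact hmono (Fin.le_last _)
  refine ⟨σ, hlast, fun a _ => ?_⟩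
  let S : Finset (Fin (n + 1)) := Finset.univ.filter fun a => f (σ a) = 0
  have hcard : S.card = (Finset.univ.filter fun x => H.Adj x (Fin.last n)).card := by
    apply Finset.card_bij (fun a _ => σ a)
    · intro b hb
      simp only [S, Finset.mem_filter, Finset.mem_univ, true_and] at hb ⊢
      exact (f0 _).1 hb
    · intro b _ c _ hbc
      exact σ.injective hbc
    · intro b hb
      simp only [Finset.mem_filter, Finset.mem_univ, true_and] at hb
      refine ⟨σ.symm b, ?_, by simp⟩
      simp only [S, Finset.mem_filter, Finset.mem_univ, true_and, Equiv.apply_symm_apply]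
      exact (f0 _).2 hb
  rw [← hcard, ← lower_set S]
  · simp only [S, Finset.mem_filter, Finset.mem_univ, true_and]
    exact (f0 _).symm
  · intro b c hbc hc
    simp only [S, Finset.mem_filter, Finset.mem_univ, true_and] at hc ⊢
    have := hmono hbc
    change f (σ b) ≤ f (σ c) at this
    omega

open Classical in
theorem exists_topCode {n : ℕ} {P : List (ℕ × ℕ)} (hP : okPairs n P = true)
    (hL : P.length = n * (n - 1) / 2) (H : SimpleGraph (Fin (n + 1))) :
    ∃ low < 2 ^ P.length, Nonempty (H ≃g graphOf (n + 1) (topCode P.length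
      (Finset.univ.filter fun x => H.Adj x (Fin.last n)).card low)) := by
  obtain ⟨σ, hσ, hs⟩ := sort_last H
  set d := (Finset.univ.filter fun x => H.Adj x (Fin.last n)).card with hd
  let f : ℕ → ℕ → Bool := fun a b => decide (∃ (ha : a < n + 1) (hb : b < n + 1),
    H.Adj (σ ⟨a, ha⟩) (σ ⟨b, hb⟩))
  have hlow : enc f P < 2 ^ P.length := enc_lt f P
  refine ⟨enc f P, hlow, ?_⟩
  have main : ∀ (i j : Fin (n + 1)), i < j → (adjB (topCode P.length d (enc f P)) i.1 j.1 = true ↔
      H.Adj (σ i) (σ j)) := by
    intro i j hij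
    have hij' : i.1 < j.1 := hij
    rw [adjB_lt hij']
    rcases Nat.lt_succ_iff_lt_or_eq.1 j.2 with h1 | h1
    · have hs := okPairs_spec hP hij' h1
      have hlen : eid i.1 j.1 < P.length := by
        by_contra hcon
        rw [List.getElem?_eq_none (by omega)] at hs
        exact absurd hs (by simp)
      rw [topCode_low hlow hlen, enc_testBit _ _ _ _ hs]
      simp only [f, decide_eq_true_eq]
      constructor
      · rintro ⟨_, _, h2⟩; exact h2
      · intro h2; exact ⟨i.2, j.2, h2⟩
    · have hj : j = Fin.last n := Fin.ext h1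
      have hin : i.1 < n := by omega
      rw [h1, eid_top hin, ← hL, topCode_top hlow, hj, hσ, decide_eq_true_eq]
      exact (hs i (by rintro rfl; exact absurd hin (by simp))).symm
  refine ⟨(⟨σ, ?_⟩ : graphOf (n + 1) (topCode P.length d (enc f P)) ≃g H).symm⟩
  intro i j
  change H.Adj (σ i) (σ j) ↔ adjB (topCode P.length d (enc f P)) i.1 j.1 = true
  rcases lt_trichotomy i j with h1 | h1 | h1
  · exact (main i j h1).symm
  · rw [h1, adjB_self]
    simp
  · rw [adjB_comm, SimpleGraph.adj_comm]
    exact (main j i h1).symm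

/-- the check for the graphs whose last vertex is adjacent to `0, …, d - 1` -/
structure Check (n d : ℕ) (P : List (ℕ × ℕ)) (tab : List (List ℕ × List (ℕ × List ℕ)))
    (exc : List ℕ) : Prop where
  hP : okPairs n P = true
  hL : P.length = n * (n - 1) / 2
  ht : okTab (n + 1) tab = true
  main : ∃ (B : ℕ) (reps : List (ℕ × ℕ × ℕ × ℕ × List ℕ)) (perms : List ℕ)
    (poss : List (List ℕ)) (Ts : List ℕ),
    perms.all (okPerm n d) = true ∧ perms.map (posList P) = poss ∧
    (reps.map fun c => c.2.1) = Ts ∧
    reps.all (fun c => decide (c.1 < 2 ^ P.length) &&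
      (exc.contains (topCode P.length d c.1) || wit (n + 1) (topCode P.length d c.1) c.2.2) &&
      okT (n + 1) c.2.1 (topCode P.length d c.1)) = true ∧
    Nat.beq (buildB poss Ts) B = true ∧
    Nat.beq (Nat.land (Nat.lor (modT P.length d tab) B) (ones P.length)) (ones P.length) = true

theorem Check.spec {n d : ℕ} {P : List (ℕ × ℕ)} {tab : List (List ℕ × List (ℕ × List ℕ))}
    {exc : List ℕ} (hn : 2 ≤ n) (hc : Check n d P tab exc) {low : ℕ}
    (hlow : low < 2 ^ P.length) (hM : Member (graphOf (n + 1) (topCode P.length d low))) :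
    ∃ r ∈ exc, Nonempty (graphOf (n + 1) (topCode P.length d low) ≃g graphOf (n + 1) r) := by
  obtain ⟨B, reps, perms, poss, Ts, hperms, hposs, hTs, hreps, hB, hall⟩ := hc.main
  have h2 : B.testBit low = true ∨ (modT P.length d tab).testBit low = true := by
    have h3 : ((modT P.length d tab ||| B) &&& ones P.length) = ones P.length :=
      Nat.eq_of_beq_eq_true hall
    have h4 : ((modT P.length d tab ||| B) &&& ones P.length).testBit low = true := by
      rw [h3, ones_testBit]
      exact decide_eq_true hlow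
    rw [Nat.testBit_and, Nat.testBit_or, Bool.and_eq_true, Bool.or_eq_true] at h4
    exact h4.1.symm
  rcases h2 with h2 | h2
  · rw [← Nat.eq_of_beq_eq_true hB] at h2
    obtain ⟨T, hT, l, hl, hi⟩ := buildB_spec h2
    rw [← hTs, List.mem_map] at hT
    obtain ⟨c, hc', rfl⟩ := hT
    rw [← hposs, List.mem_map] at hl
    obtain ⟨φ, hφ, rfl⟩ := hl
    rw [List.all_eq_true] at hreps hperms
    have h3 := hreps c hc'
    simp only [Bool.and_eq_true, decide_eq_true_eq, Bool.or_eq_true, List.contains_iff_mem] at h3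
    obtain ⟨⟨h4, h5⟩, h6⟩ := h3
    have hiso := iso_of_img hc.hP hc.hL h4 h6 (hperms φ hφ) hi
    rcases h5 with h5 | h5
    · exact ⟨_, h5, hiso⟩
    · exfalso
      obtain ⟨e⟩ := hiso
      exact not_member_of_wit (by omega) h5 (member_congr e hM)
  · exact absurd hM (not_member_of_modT hc.ht hlow h2)

/-- the classification up to complements -/
theorem classify {n : ℕ} {P : List (ℕ × ℕ)} {tab : List (List ℕ × List (ℕ × List ℕ))}
    {exc : List ℕ} (hn : 2 ≤ n)
    (hc : ∀ d, 2 * d ≤ n → Check n d P tab exc) (H : SimpleGraph (Fin (n + 1)))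
    (hM : Member H) : ∃ r ∈ exc, Nonempty (H ≃g graphOf (n + 1) r) ∨
      Nonempty (Hᶜ ≃g graphOf (n + 1) r) := by
  classical
  have key : ∀ K : SimpleGraph (Fin (n + 1)), Member K →
      2 * (Finset.univ.filter fun x => K.Adj x (Fin.last n)).card ≤ n →
      ∃ r ∈ exc, Nonempty (K ≃g graphOf (n + 1) r) := by
    intro K hK hd
    have hC := hc _ hd
    obtain ⟨low, hlow, ⟨e⟩⟩ := exists_topCode hC.hP hC.hL K
    obtain ⟨r, hr, ⟨e'⟩⟩ := hC.spec hn hlow (member_congr e hK)
    exact ⟨r, hr, ⟨e.trans e'⟩⟩
  rcases le_or_gt (2 * (Finset.univ.filter fun x => H.Adj x (Fin.last n)).card) n with h1 | h1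
  · obtain ⟨r, hr, h2⟩ := key H hM h1
    exact ⟨r, hr, Or.inl h2⟩
  · have h2 : (Finset.univ.filter fun x => H.Adj x (Fin.last n)).card +
        (Finset.univ.filter fun x => Hᶜ.Adj x (Fin.last n)).card ≤ n := by
      rw [← Finset.card_union_of_disjoint]
      · have h3 : (Finset.univ.filter fun x => H.Adj x (Fin.last n)) ∪
            (Finset.univ.filter fun x => Hᶜ.Adj x (Fin.last n)) ⊆
            Finset.univ.erase (Fin.last n) := by
          intro x hx
          rw [Finset.mem_union, Finset.mem_filter, Finset.mem_filter] at hx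
          rw [Finset.mem_erase]
          refine ⟨?_, Finset.mem_univ _⟩
          rintro rfl
          rcases hx with hx | hx
          · exact H.loopless.irrefl _ hx.2
          · exact Hᶜ.loopless.irrefl _ hx.2
        refine (Finset.card_le_card h3).trans ?_
        rw [Finset.card_erase_of_mem (Finset.mem_univ _), Finset.card_univ, Fintype.card_fin]
        omega
      · rw [Finset.disjoint_filter]
        intro x _ hx hx'
        rw [SimpleGraph.compl_adj] at hx'
        exact hx'.2 hx
    have h5 : 2 * (Finset.univ.filter fun x => Hᶜ.Adj x (Fin.last n)).card ≤ n := by omega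
    obtain ⟨r, hr, h3⟩ := key Hᶜ (member_compl hM) (by convert h5)
    exact ⟨r, hr, Or.inr h3⟩

end Pool.Agent.H68.Ind
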