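import Pool.Agent.H68.Ind.Codes

/-!
Data for the classification of the members with 3 vertices (found by computer search; everything
below is checked by the kernel).
-/

set_option autoImplicit false
set_option maxRecDepth 100000

namespace Pool.Agent.H68.Ind

def P3 : List (ℕ × ℕ) := [
  (0, 1)]

def tab3 : List (List ℕ × List (ℕ × List ℕ)) := [
  ([0, 1], [(2, [1, 2])]), ([0, 2], [(1, [0, 2])]), ([1, 2], [(0, [0, 1])])]

def exc3 : List ℕ := [
]

def perms3_0 : List ℕ := [
  136, 129]

def poss3_0 : List (List ℕ) := [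
  [1], [8]]

def reps3_0 : List (ℕ × ℕ × ℕ × ℕ × List ℕ) := [
]

def Ts3_0 : List ℕ := [
]

def B3_0 : ℕ := 0x0

theorem okPerms3_0 : perms3_0.all (okPerm 2 0) = true := by decide +kernel

theorem okReps3_0 : reps3_0.all (fun c => decide (c.1 < 2 ^ P3.length) &&
    (exc3.contains (topCode P3.length 0 c.1) ||
      wit (2 + 1) (topCode P3.length 0 c.1) c.2.2) &&
    okT (2 + 1) c.2.1 (topCode P3.length 0 c.1)) = true := by decide +kernel

theorem okPoss3_0 : perms3_0.map (posList P3) = poss3_0 := by decide +kernel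

theorem okTs3_0 : (reps3_0.map fun c => c.2.1) = Ts3_0 := by decide +kernel

theorem okB3_0 : Nat.beq (buildB poss3_0 Ts3_0) B3_0 = true := by decide +kernel

theorem okAll3_0 : Nat.beq (Nat.land (Nat.lor (modT P3.length 0 tab3) B3_0)
    (ones P3.length)) (ones P3.length) = true := by
  decide +kernel

def perms3_1 : List ℕ := [
  136]

def poss3_1 : List (List ℕ) := [
  [1]]

def reps3_1 : List (ℕ × ℕ × ℕ × ℕ × List ℕ) := [
]

def Ts3_1 : List ℕ := [
]

def B3_1 : ℕ := 0x0

theorem okPerms3_1 : perms3_1.all (okPerm 2 1) = true := by decide +kernel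

theorem okReps3_1 : reps3_1.all (fun c => decide (c.1 < 2 ^ P3.length) &&
    (exc3.contains (topCode P3.length 1 c.1) ||
      wit (2 + 1) (topCode P3.length 1 c.1) c.2.2) &&
    okT (2 + 1) c.2.1 (topCode P3.length 1 c.1)) = true := by decide +kernel

theorem okPoss3_1 : perms3_1.map (posList P3) = poss3_1 := by decide +kernel

theorem okTs3_1 : (reps3_1.map fun c => c.2.1) = Ts3_1 := by decide +kernel

theorem okB3_1 : Nat.beq (buildB poss3_1 Ts3_1) B3_1 = true := by decide +kernel

theorem okAll3_1 : Nat.beq (Nat.land (Nat.lor (modT P3.length 1 tab3) B3_1)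
    (ones P3.length)) (ones P3.length) = true := by
  decide +kernel

theorem okP3 : okPairs 2 P3 = true := by decide +kernel

theorem okTab3 : okTab (2 + 1) tab3 = true := by decide +kernel

theorem check3 (d : ℕ) (hd : 2 * d ≤ 2) : Check 2 d P3 tab3 exc3 := by
  refine ⟨okP3, rfl, okTab3, ?_⟩
  have h1 : d ≤ 1 := by omega
  interval_cases d
  · exact ⟨B3_0, reps3_0, perms3_0, poss3_0, Ts3_0,
      okPerms3_0, okPoss3_0, okTs3_0, okReps3_0, okB3_0, okAll3_0⟩
  · exact ⟨B3_1, reps3_1, perms3_1, poss3_1, Ts3_1,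
      okPerms3_1, okPoss3_1, okTs3_1, okReps3_1, okB3_1, okAll3_1⟩

theorem classify3 (H : SimpleGraph (Fin 3)) (hM : Member H) :
    ∃ r ∈ exc3, Nonempty (H ≃g graphOf 3 r) ∨ Nonempty (Hᶜ ≃g graphOf 3 r) :=
  classify (n := 2) (by norm_num) check3 H hM

end Pool.Agent.H68.Ind
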