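import Pool.Agent.H68.Ind.Codes

/-!
Data for the classification of the members with 4 vertices (found by computer search; everything
below is checked by the kernel).
-/

set_option autoImplicit false
set_option maxRecDepth 100000

namespace Pool.Agent.H68.Ind

def P4 : List (ℕ × ℕ) := [
  (0, 1), (0, 2), (1, 2)]

def tab4 : List (List ℕ × List (ℕ × List ℕ)) := [
  ([0, 1, 2], [(3, [3, 4, 5])]), ([0, 1], [(2, [1, 2]), (3, [3, 4])]),
  ([0, 2], [(1, [0, 2]), (3, [3, 5])]), ([0, 3], [(1, [0, 4]), (2, [1, 5])]),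
  ([1, 2], [(0, [0, 1]), (3, [4, 5])]), ([1, 3], [(0, [0, 3]), (2, [2, 5])]),
  ([2, 3], [(0, [1, 3]), (1, [2, 4])]), ([0, 1, 3], [(2, [1, 2, 5])]),
  ([0, 2, 3], [(1, [0, 2, 4])]), ([1, 2, 3], [(0, [0, 1, 3])])]

def exc4 : List ℕ := [
]

def perms4_0 : List ℕ := [
  1672, 1616, 1665, 1553, 1602, 1546]

def poss4_0 : List (List ℕ) := [
  [1, 2, 10], [2, 1, 17], [8, 10, 2], [10, 8, 16], [16, 17, 1], [17, 16, 8]]

def reps4_0 : List (ℕ × ℕ × ℕ × ℕ × List ℕ) := [
]

def Ts4_0 : List ℕ := [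
]

def B4_0 : ℕ := 0x0

theorem okPerms4_0 : perms4_0.all (okPerm 3 0) = true := by decide +kernel

theorem okReps4_0 : reps4_0.all (fun c => decide (c.1 < 2 ^ P4.length) &&
    (exc4.contains (topCode P4.length 0 c.1) ||
      wit (3 + 1) (topCode P4.length 0 c.1) c.2.2) &&
    okT (3 + 1) c.2.1 (topCode P4.length 0 c.1)) = true := by decide +kernel

theorem okPoss4_0 : perms4_0.map (posList P4) = poss4_0 := by decide +kernel

theorem okTs4_0 : (reps4_0.map fun c => c.2.1) = Ts4_0 := by decide +kernel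

theorem okB4_0 : Nat.beq (buildB poss4_0 Ts4_0) B4_0 = true := by decide +kernel

theorem okAll4_0 : Nat.beq (Nat.land (Nat.lor (modT P4.length 0 tab4) B4_0)
    (ones P4.length)) (ones P4.length) = true := by
  decide +kernel

def perms4_1 : List ℕ := [
  1672, 1616]

def poss4_1 : List (List ℕ) := [
  [1, 2, 10], [2, 1, 17]]

def reps4_1 : List (ℕ × ℕ × ℕ × ℕ × List ℕ) := [
  (5, 16909578, 0, 14, [0, 2, 1, 3])]

def Ts4_1 : List ℕ := [
  16909578]

def B4_1 : ℕ := 0x60

theorem okPerms4_1 : perms4_1.all (okPerm 3 1) = true := by decide +kernel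

theorem okReps4_1 : reps4_1.all (fun c => decide (c.1 < 2 ^ P4.length) &&
    (exc4.contains (topCode P4.length 1 c.1) ||
      wit (3 + 1) (topCode P4.length 1 c.1) c.2.2) &&
    okT (3 + 1) c.2.1 (topCode P4.length 1 c.1)) = true := by decide +kernel

theorem okPoss4_1 : perms4_1.map (posList P4) = poss4_1 := by decide +kernel

theorem okTs4_1 : (reps4_1.map fun c => c.2.1) = Ts4_1 := by decide +kernel

theorem okB4_1 : Nat.beq (buildB poss4_1 Ts4_1) B4_1 = true := by decide +kernel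

theorem okAll4_1 : Nat.beq (Nat.land (Nat.lor (modT P4.length 1 tab4) B4_1)
    (ones P4.length)) (ones P4.length) = true := by
  decide +kernel

theorem okP4 : okPairs 3 P4 = true := by decide +kernel

theorem okTab4 : okTab (3 + 1) tab4 = true := by decide +kernel

theorem check4 (d : ℕ) (hd : 2 * d ≤ 3) : Check 3 d P4 tab4 exc4 := by
  refine ⟨okP4, rfl, okTab4, ?_⟩
  have h1 : d ≤ 1 := by omega
  interval_cases d
  · exact ⟨B4_0, reps4_0, perms4_0, poss4_0, Ts4_0,
      okPerms4_0, okPoss4_0, okTs4_0, okReps4_0, okB4_0, okAll4_0⟩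
  · exact ⟨B4_1, reps4_1, perms4_1, poss4_1, Ts4_1,
      okPerms4_1, okPoss4_1, okTs4_1, okReps4_1, okB4_1, okAll4_1⟩

theorem classify4 (H : SimpleGraph (Fin 4)) (hM : Member H) :
    ∃ r ∈ exc4, Nonempty (H ≃g graphOf 4 r) ∨ Nonempty (Hᶜ ≃g graphOf 4 r) :=
  classify (n := 3) (by norm_num) check4 H hM

end Pool.Agent.H68.Ind
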