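import Pool.Agent.H68.Ind.Codes

/-!
Data for the classification of the members with 5 vertices (found by computer search; everything
below is checked by the kernel).
-/

set_option autoImplicit false
set_option maxRecDepth 100000

namespace Pool.Agent.H68.Ind

def P5 : List (ℕ × ℕ) := [
  (0, 1), (0, 2), (1, 2), (0, 3), (1, 3), (2, 3)]

def tab5 : List (List ℕ × List (ℕ × List ℕ)) := [
  ([0, 1, 2, 3], [(4, [6, 7, 8, 9])]), ([0, 1], [(2, [1, 2]), (3, [3, 4]), (4, [6, 7])]),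
  ([0, 2], [(1, [0, 2]), (3, [3, 5]), (4, [6, 8])]),
  ([0, 3], [(1, [0, 4]), (2, [1, 5]), (4, [6, 9])]),
  ([0, 4], [(1, [0, 7]), (2, [1, 8]), (3, [3, 9])]),
  ([1, 2], [(0, [0, 1]), (3, [4, 5]), (4, [7, 8])]),
  ([1, 3], [(0, [0, 3]), (2, [2, 5]), (4, [7, 9])]),
  ([1, 4], [(0, [0, 6]), (2, [2, 8]), (3, [4, 9])]),
  ([2, 3], [(0, [1, 3]), (1, [2, 4]), (4, [8, 9])]),
  ([2, 4], [(0, [1, 6]), (1, [2, 7]), (3, [5, 9])]),
  ([3, 4], [(0, [3, 6]), (1, [4, 7]), (2, [5, 8])]),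
  ([0, 1, 2], [(3, [3, 4, 5]), (4, [6, 7, 8])]), ([0, 1, 3], [(2, [1, 2, 5]), (4, [6, 7, 9])]),
  ([0, 1, 4], [(2, [1, 2, 8]), (3, [3, 4, 9])]), ([0, 2, 3], [(1, [0, 2, 4]), (4, [6, 8, 9])]),
  ([0, 2, 4], [(1, [0, 2, 7]), (3, [3, 5, 9])]), ([0, 3, 4], [(1, [0, 4, 7]), (2, [1, 5, 8])]),
  ([1, 2, 3], [(0, [0, 1, 3]), (4, [7, 8, 9])]), ([1, 2, 4], [(0, [0, 1, 6]), (3, [4, 5, 9])]),
  ([1, 3, 4], [(0, [0, 3, 6]), (2, [2, 5, 8])]), ([2, 3, 4], [(0, [1, 3, 6]), (1, [2, 4, 7])]),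
  ([0, 1, 2, 4], [(3, [3, 4, 5, 9])]), ([0, 1, 3, 4], [(2, [1, 2, 5, 8])]),
  ([0, 2, 3, 4], [(1, [0, 2, 4, 7])]), ([1, 2, 3, 4], [(0, [0, 1, 3, 6])])]

def exc5 : List ℕ := [
  236]

def perms5_0 : List ℕ := [
  18056, 17608, 18000, 17104, 17496, 17048, 18049, 17601, 17937, 16593, 17433, 16537, 17986,
  17090, 17930, 16586, 16922, 16474, 17475, 17027, 17419, 16523, 16915, 16467]

def poss5_0 : List (List ℕ) := [
  [1, 2, 10, 3, 11, 19], [1, 3, 11, 2, 10, 26], [2, 1, 17, 3, 19, 11], [2, 3, 19, 1, 17, 25],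
  [3, 1, 25, 2, 26, 10], [3, 2, 26, 1, 25, 17], [8, 10, 2, 11, 3, 19], [8, 11, 3, 10, 2, 26],
  [10, 8, 16, 11, 19, 3], [10, 11, 19, 8, 16, 24], [11, 8, 24, 10, 26, 2],
  [11, 10, 26, 8, 24, 16], [16, 17, 1, 19, 3, 11], [16, 19, 3, 17, 1, 25],
  [17, 16, 8, 19, 11, 3], [17, 19, 11, 16, 8, 24], [19, 16, 24, 17, 25, 1],
  [19, 17, 25, 16, 24, 8], [24, 25, 1, 26, 2, 10], [24, 26, 2, 25, 1, 17],
  [25, 24, 8, 26, 10, 2], [25, 26, 10, 24, 8, 16], [26, 24, 16, 25, 17, 1],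
  [26, 25, 17, 24, 16, 8]]

def reps5_0 : List (ℕ × ℕ × ℕ × ℕ × List ℕ) := [
]

def Ts5_0 : List ℕ := [
]

def B5_0 : ℕ := 0x0

theorem okPerms5_0 : perms5_0.all (okPerm 4 0) = true := by decide +kernel

theorem okReps5_0 : reps5_0.all (fun c => decide (c.1 < 2 ^ P5.length) &&
    (exc5.contains (topCode P5.length 0 c.1) ||
      wit (4 + 1) (topCode P5.length 0 c.1) c.2.2) &&
    okT (4 + 1) c.2.1 (topCode P5.length 0 c.1)) = true := by decide +kernel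

theorem okPoss5_0 : perms5_0.map (posList P5) = poss5_0 := by decide +kernel

theorem okTs5_0 : (reps5_0.map fun c => c.2.1) = Ts5_0 := by decide +kernel

theorem okB5_0 : Nat.beq (buildB poss5_0 Ts5_0) B5_0 = true := by decide +kernel

theorem okAll5_0 : Nat.beq (Nat.land (Nat.lor (modT P5.length 0 tab5) B5_0)
    (ones P5.length)) (ones P5.length) = true := by
  decide +kernel

def perms5_1 : List ℕ := [
  18056, 17608, 18000, 17104, 17496, 17048]

def poss5_1 : List (List ℕ) := [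
  [1, 2, 10, 3, 11, 19], [1, 3, 11, 2, 10, 26], [2, 1, 17, 3, 19, 11], [2, 3, 19, 1, 17, 25],
  [3, 1, 25, 2, 26, 10], [3, 2, 26, 1, 25, 17]]

def reps5_1 : List (ℕ × ℕ × ℕ × ℕ × List ℕ) := [
  (22, 4328721428, 0, 92, [0, 1, 3, 2, 4]), (23, 4328721686, 0, 93, [0, 1, 3, 2, 4])]

def Ts5_1 : List ℕ := [
  4328721428, 4328721686]

def B5_1 : ℕ := 0x60650a030c00000

theorem okPerms5_1 : perms5_1.all (okPerm 4 1) = true := by decide +kernel

theorem okReps5_1 : reps5_1.all (fun c => decide (c.1 < 2 ^ P5.length) &&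
    (exc5.contains (topCode P5.length 1 c.1) ||
      wit (4 + 1) (topCode P5.length 1 c.1) c.2.2) &&
    okT (4 + 1) c.2.1 (topCode P5.length 1 c.1)) = true := by decide +kernel

theorem okPoss5_1 : perms5_1.map (posList P5) = poss5_1 := by decide +kernel

theorem okTs5_1 : (reps5_1.map fun c => c.2.1) = Ts5_1 := by decide +kernel

theorem okB5_1 : Nat.beq (buildB poss5_1 Ts5_1) B5_1 = true := by decide +kernel

theorem okAll5_1 : Nat.beq (Nat.land (Nat.lor (modT P5.length 1 tab5) B5_1)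
    (ones P5.length)) (ones P5.length) = true := by
  decide +kernel

def perms5_2 : List ℕ := [
  18056, 17608, 18049, 17601]

def poss5_2 : List (List ℕ) := [
  [1, 2, 10, 3, 11, 19], [1, 3, 11, 2, 10, 26], [8, 10, 2, 11, 3, 19], [8, 11, 3, 10, 2, 26]]

def reps5_2 : List (ℕ × ℕ × ℕ × ℕ × List ℕ) := [
  (12, 12901815320, 0, 142, [0, 1, 4, 3, 2]), (13, 12901815578, 0, 143, [0, 1, 4, 3, 2]),
  (34, 12952604692, 0, 163, [0, 2, 4, 1, 3]), (44, 12969448472, 0, 0, []),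
  (45, 12969448730, 0, 238, [0, 2, 1, 4, 3]), (46, 12969514012, 0, 237, [0, 2, 1, 4, 3])]

def Ts5_2 : List ℕ := [
  12901815320, 12901815578, 12952604692, 12969448472, 12969448730, 12969514012]

def B5_2 : ℕ := 0x144d7114000c3000

theorem okPerms5_2 : perms5_2.all (okPerm 4 2) = true := by decide +kernel

theorem okReps5_2 : reps5_2.all (fun c => decide (c.1 < 2 ^ P5.length) &&
    (exc5.contains (topCode P5.length 2 c.1) ||
      wit (4 + 1) (topCode P5.length 2 c.1) c.2.2) &&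
    okT (4 + 1) c.2.1 (topCode P5.length 2 c.1)) = true := by decide +kernel

theorem okPoss5_2 : perms5_2.map (posList P5) = poss5_2 := by decide +kernel

theorem okTs5_2 : (reps5_2.map fun c => c.2.1) = Ts5_2 := by decide +kernel

theorem okB5_2 : Nat.beq (buildB poss5_2 Ts5_2) B5_2 = true := by decide +kernel

theorem okAll5_2 : Nat.beq (Nat.land (Nat.lor (modT P5.length 2 tab5) B5_2)
    (ones P5.length)) (ones P5.length) = true := by
  decide +kernel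

theorem okP5 : okPairs 4 P5 = true := by decide +kernel

theorem okTab5 : okTab (4 + 1) tab5 = true := by decide +kernel

theorem check5 (d : ℕ) (hd : 2 * d ≤ 4) : Check 4 d P5 tab5 exc5 := by
  refine ⟨okP5, rfl, okTab5, ?_⟩
  have h1 : d ≤ 2 := by omega
  interval_cases d
  · exact ⟨B5_0, reps5_0, perms5_0, poss5_0, Ts5_0,
      okPerms5_0, okPoss5_0, okTs5_0, okReps5_0, okB5_0, okAll5_0⟩
  · exact ⟨B5_1, reps5_1, perms5_1, poss5_1, Ts5_1,
      okPerms5_1, okPoss5_1, okTs5_1, okReps5_1, okB5_1, okAll5_1⟩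
  · exact ⟨B5_2, reps5_2, perms5_2, poss5_2, Ts5_2,
      okPerms5_2, okPoss5_2, okTs5_2, okReps5_2, okB5_2, okAll5_2⟩

theorem classify5 (H : SimpleGraph (Fin 5)) (hM : Member H) :
    ∃ r ∈ exc5, Nonempty (H ≃g graphOf 5 r) ∨ Nonempty (Hᶜ ≃g graphOf 5 r) :=
  classify (n := 4) (by norm_num) check5 H hM

end Pool.Agent.H68.Ind
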