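import Pool.Agent.H68.Ind.Codes

/-!
Data for the classification of the members with 6 vertices (found by computer search; everything
below is checked by the kernel).
-/

set_option autoImplicit false
set_option maxRecDepth 100000

namespace Pool.Agent.H68.Ind

def P6 : List (ℕ × ℕ) := [
  (0, 1), (0, 2), (1, 2), (0, 3), (1, 3), (2, 3), (0, 4), (1, 4), (2, 4), (3, 4)]

def tab6 : List (List ℕ × List (ℕ × List ℕ)) := [
  ([0, 1, 2, 3, 4], [(5, [10, 11, 12, 13, 14])]),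
  ([0, 1], [(2, [1, 2]), (3, [3, 4]), (4, [6, 7]), (5, [10, 11])]),
  ([0, 2], [(1, [0, 2]), (3, [3, 5]), (4, [6, 8]), (5, [10, 12])]),
  ([0, 3], [(1, [0, 4]), (2, [1, 5]), (4, [6, 9]), (5, [10, 13])]),
  ([0, 4], [(1, [0, 7]), (2, [1, 8]), (3, [3, 9]), (5, [10, 14])]),
  ([0, 5], [(1, [0, 11]), (2, [1, 12]), (3, [3, 13]), (4, [6, 14])]),
  ([1, 2], [(0, [0, 1]), (3, [4, 5]), (4, [7, 8]), (5, [11, 12])]),
  ([1, 3], [(0, [0, 3]), (2, [2, 5]), (4, [7, 9]), (5, [11, 13])]),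
  ([1, 4], [(0, [0, 6]), (2, [2, 8]), (3, [4, 9]), (5, [11, 14])]),
  ([1, 5], [(0, [0, 10]), (2, [2, 12]), (3, [4, 13]), (4, [7, 14])]),
  ([2, 3], [(0, [1, 3]), (1, [2, 4]), (4, [8, 9]), (5, [12, 13])]),
  ([2, 4], [(0, [1, 6]), (1, [2, 7]), (3, [5, 9]), (5, [12, 14])]),
  ([2, 5], [(0, [1, 10]), (1, [2, 11]), (3, [5, 13]), (4, [8, 14])]),
  ([3, 4], [(0, [3, 6]), (1, [4, 7]), (2, [5, 8]), (5, [13, 14])]),
  ([3, 5], [(0, [3, 10]), (1, [4, 11]), (2, [5, 12]), (4, [9, 14])]),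
  ([4, 5], [(0, [6, 10]), (1, [7, 11]), (2, [8, 12]), (3, [9, 13])]),
  ([0, 1, 2], [(3, [3, 4, 5]), (4, [6, 7, 8]), (5, [10, 11, 12])]),
  ([0, 1, 3], [(2, [1, 2, 5]), (4, [6, 7, 9]), (5, [10, 11, 13])]),
  ([0, 1, 4], [(2, [1, 2, 8]), (3, [3, 4, 9]), (5, [10, 11, 14])]),
  ([0, 1, 5], [(2, [1, 2, 12]), (3, [3, 4, 13]), (4, [6, 7, 14])]),
  ([0, 2, 3], [(1, [0, 2, 4]), (4, [6, 8, 9]), (5, [10, 12, 13])]),
  ([0, 2, 4], [(1, [0, 2, 7]), (3, [3, 5, 9]), (5, [10, 12, 14])]),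
  ([0, 2, 5], [(1, [0, 2, 11]), (3, [3, 5, 13]), (4, [6, 8, 14])]),
  ([0, 3, 4], [(1, [0, 4, 7]), (2, [1, 5, 8]), (5, [10, 13, 14])]),
  ([0, 3, 5], [(1, [0, 4, 11]), (2, [1, 5, 12]), (4, [6, 9, 14])]),
  ([0, 4, 5], [(1, [0, 7, 11]), (2, [1, 8, 12]), (3, [3, 9, 13])]),
  ([1, 2, 3], [(0, [0, 1, 3]), (4, [7, 8, 9]), (5, [11, 12, 13])]),
  ([1, 2, 4], [(0, [0, 1, 6]), (3, [4, 5, 9]), (5, [11, 12, 14])]),
  ([1, 2, 5], [(0, [0, 1, 10]), (3, [4, 5, 13]), (4, [7, 8, 14])]),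
  ([1, 3, 4], [(0, [0, 3, 6]), (2, [2, 5, 8]), (5, [11, 13, 14])]),
  ([1, 3, 5], [(0, [0, 3, 10]), (2, [2, 5, 12]), (4, [7, 9, 14])]),
  ([1, 4, 5], [(0, [0, 6, 10]), (2, [2, 8, 12]), (3, [4, 9, 13])]),
  ([2, 3, 4], [(0, [1, 3, 6]), (1, [2, 4, 7]), (5, [12, 13, 14])]),
  ([2, 3, 5], [(0, [1, 3, 10]), (1, [2, 4, 11]), (4, [8, 9, 14])]),
  ([2, 4, 5], [(0, [1, 6, 10]), (1, [2, 7, 11]), (3, [5, 9, 13])]),
  ([3, 4, 5], [(0, [3, 6, 10]), (1, [4, 7, 11]), (2, [5, 8, 12])]),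
  ([0, 1, 2, 3], [(4, [6, 7, 8, 9]), (5, [10, 11, 12, 13])]),
  ([0, 1, 2, 4], [(3, [3, 4, 5, 9]), (5, [10, 11, 12, 14])]),
  ([0, 1, 2, 5], [(3, [3, 4, 5, 13]), (4, [6, 7, 8, 14])]),
  ([0, 1, 3, 4], [(2, [1, 2, 5, 8]), (5, [10, 11, 13, 14])]),
  ([0, 1, 3, 5], [(2, [1, 2, 5, 12]), (4, [6, 7, 9, 14])]),
  ([0, 1, 4, 5], [(2, [1, 2, 8, 12]), (3, [3, 4, 9, 13])]),
  ([0, 2, 3, 4], [(1, [0, 2, 4, 7]), (5, [10, 12, 13, 14])]),
  ([0, 2, 3, 5], [(1, [0, 2, 4, 11]), (4, [6, 8, 9, 14])]),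
  ([0, 2, 4, 5], [(1, [0, 2, 7, 11]), (3, [3, 5, 9, 13])]),
  ([0, 3, 4, 5], [(1, [0, 4, 7, 11]), (2, [1, 5, 8, 12])]),
  ([1, 2, 3, 4], [(0, [0, 1, 3, 6]), (5, [11, 12, 13, 14])]),
  ([1, 2, 3, 5], [(0, [0, 1, 3, 10]), (4, [7, 8, 9, 14])]),
  ([1, 2, 4, 5], [(0, [0, 1, 6, 10]), (3, [4, 5, 9, 13])]),
  ([1, 3, 4, 5], [(0, [0, 3, 6, 10]), (2, [2, 5, 8, 12])]),
  ([2, 3, 4, 5], [(0, [1, 3, 6, 10]), (1, [2, 4, 7, 11])]),
  ([0, 1, 2, 3, 5], [(4, [6, 7, 8, 9, 14])]), ([0, 1, 2, 4, 5], [(3, [3, 4, 5, 9, 13])]),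
  ([0, 1, 3, 4, 5], [(2, [1, 2, 5, 8, 12])]), ([0, 2, 3, 4, 5], [(1, [0, 2, 4, 7, 11])]),
  ([1, 2, 3, 4, 5], [(0, [0, 1, 3, 6, 10])])]

def exc6 : List ℕ := [
  1191, 3440, 3447]

def perms6_0 : List ℕ := [
  181896, 178312, 181448, 174280, 177416, 173832, 181840, 178256, 180944, 170192, 176912,
  169744, 181336, 174168, 180888, 170136, 172824, 169240, 177248, 173664, 176800, 169632,
  172768, 169184, 181889, 178305, 181441, 174273, 177409, 173825, 181777, 178193, 180433,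
  166097, 176401, 165649, 181273, 174105, 180377, 166041, 172313, 165145, 177185, 173601,
  176289, 165537, 172257, 165089, 181826, 178242, 180930, 170178, 176898, 169730, 181770,
  178186, 180426, 166090, 176394, 165642, 180762, 170010, 180314, 165978, 168218, 164634,
  176674, 169506, 176226, 165474, 168162, 164578, 181315, 174147, 180867, 170115, 172803,
  169219, 181259, 174091, 180363, 166027, 172299, 165131, 180755, 170003, 180307, 165971,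
  168211, 164627, 172579, 168995, 172131, 164963, 168099, 164515, 177220, 173636, 176772,
  169604, 172740, 169156, 177164, 173580, 176268, 165516, 172236, 165068, 176660, 169492,
  176212, 165460, 168148, 164564, 172572, 168988, 172124, 164956, 168092, 164508]

def poss6_0 : List (List ℕ) := [
  [1, 2, 10, 3, 11, 19, 4, 12, 20, 28], [1, 2, 10, 4, 12, 20, 3, 11, 19, 35],
  [1, 3, 11, 2, 10, 26, 4, 12, 28, 20], [1, 3, 11, 4, 12, 28, 2, 10, 26, 34],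
  [1, 4, 12, 2, 10, 34, 3, 11, 35, 19], [1, 4, 12, 3, 11, 35, 2, 10, 34, 26],
  [2, 1, 17, 3, 19, 11, 4, 20, 12, 28], [2, 1, 17, 4, 20, 12, 3, 19, 11, 35],
  [2, 3, 19, 1, 17, 25, 4, 20, 28, 12], [2, 3, 19, 4, 20, 28, 1, 17, 25, 33],
  [2, 4, 20, 1, 17, 33, 3, 19, 35, 11], [2, 4, 20, 3, 19, 35, 1, 17, 33, 25],
  [3, 1, 25, 2, 26, 10, 4, 28, 12, 20], [3, 1, 25, 4, 28, 12, 2, 26, 10, 34],
  [3, 2, 26, 1, 25, 17, 4, 28, 20, 12], [3, 2, 26, 4, 28, 20, 1, 25, 17, 33],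
  [3, 4, 28, 1, 25, 33, 2, 26, 34, 10], [3, 4, 28, 2, 26, 34, 1, 25, 33, 17],
  [4, 1, 33, 2, 34, 10, 3, 35, 11, 19], [4, 1, 33, 3, 35, 11, 2, 34, 10, 26],
  [4, 2, 34, 1, 33, 17, 3, 35, 19, 11], [4, 2, 34, 3, 35, 19, 1, 33, 17, 25],
  [4, 3, 35, 1, 33, 25, 2, 34, 26, 10], [4, 3, 35, 2, 34, 26, 1, 33, 25, 17],
  [8, 10, 2, 11, 3, 19, 12, 4, 20, 28], [8, 10, 2, 12, 4, 20, 11, 3, 19, 35],
  [8, 11, 3, 10, 2, 26, 12, 4, 28, 20], [8, 11, 3, 12, 4, 28, 10, 2, 26, 34],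
  [8, 12, 4, 10, 2, 34, 11, 3, 35, 19], [8, 12, 4, 11, 3, 35, 10, 2, 34, 26],
  [10, 8, 16, 11, 19, 3, 12, 20, 4, 28], [10, 8, 16, 12, 20, 4, 11, 19, 3, 35],
  [10, 11, 19, 8, 16, 24, 12, 20, 28, 4], [10, 11, 19, 12, 20, 28, 8, 16, 24, 32],
  [10, 12, 20, 8, 16, 32, 11, 19, 35, 3], [10, 12, 20, 11, 19, 35, 8, 16, 32, 24],
  [11, 8, 24, 10, 26, 2, 12, 28, 4, 20], [11, 8, 24, 12, 28, 4, 10, 26, 2, 34],
  [11, 10, 26, 8, 24, 16, 12, 28, 20, 4], [11, 10, 26, 12, 28, 20, 8, 24, 16, 32],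
  [11, 12, 28, 8, 24, 32, 10, 26, 34, 2], [11, 12, 28, 10, 26, 34, 8, 24, 32, 16],
  [12, 8, 32, 10, 34, 2, 11, 35, 3, 19], [12, 8, 32, 11, 35, 3, 10, 34, 2, 26],
  [12, 10, 34, 8, 32, 16, 11, 35, 19, 3], [12, 10, 34, 11, 35, 19, 8, 32, 16, 24],
  [12, 11, 35, 8, 32, 24, 10, 34, 26, 2], [12, 11, 35, 10, 34, 26, 8, 32, 24, 16],
  [16, 17, 1, 19, 3, 11, 20, 4, 12, 28], [16, 17, 1, 20, 4, 12, 19, 3, 11, 35],
  [16, 19, 3, 17, 1, 25, 20, 4, 28, 12], [16, 19, 3, 20, 4, 28, 17, 1, 25, 33],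
  [16, 20, 4, 17, 1, 33, 19, 3, 35, 11], [16, 20, 4, 19, 3, 35, 17, 1, 33, 25],
  [17, 16, 8, 19, 11, 3, 20, 12, 4, 28], [17, 16, 8, 20, 12, 4, 19, 11, 3, 35],
  [17, 19, 11, 16, 8, 24, 20, 12, 28, 4], [17, 19, 11, 20, 12, 28, 16, 8, 24, 32],
  [17, 20, 12, 16, 8, 32, 19, 11, 35, 3], [17, 20, 12, 19, 11, 35, 16, 8, 32, 24],
  [19, 16, 24, 17, 25, 1, 20, 28, 4, 12], [19, 16, 24, 20, 28, 4, 17, 25, 1, 33],
  [19, 17, 25, 16, 24, 8, 20, 28, 12, 4], [19, 17, 25, 20, 28, 12, 16, 24, 8, 32],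
  [19, 20, 28, 16, 24, 32, 17, 25, 33, 1], [19, 20, 28, 17, 25, 33, 16, 24, 32, 8],
  [20, 16, 32, 17, 33, 1, 19, 35, 3, 11], [20, 16, 32, 19, 35, 3, 17, 33, 1, 25],
  [20, 17, 33, 16, 32, 8, 19, 35, 11, 3], [20, 17, 33, 19, 35, 11, 16, 32, 8, 24],
  [20, 19, 35, 16, 32, 24, 17, 33, 25, 1], [20, 19, 35, 17, 33, 25, 16, 32, 24, 8],
  [24, 25, 1, 26, 2, 10, 28, 4, 12, 20], [24, 25, 1, 28, 4, 12, 26, 2, 10, 34],
  [24, 26, 2, 25, 1, 17, 28, 4, 20, 12], [24, 26, 2, 28, 4, 20, 25, 1, 17, 33],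
  [24, 28, 4, 25, 1, 33, 26, 2, 34, 10], [24, 28, 4, 26, 2, 34, 25, 1, 33, 17],
  [25, 24, 8, 26, 10, 2, 28, 12, 4, 20], [25, 24, 8, 28, 12, 4, 26, 10, 2, 34],
  [25, 26, 10, 24, 8, 16, 28, 12, 20, 4], [25, 26, 10, 28, 12, 20, 24, 8, 16, 32],
  [25, 28, 12, 24, 8, 32, 26, 10, 34, 2], [25, 28, 12, 26, 10, 34, 24, 8, 32, 16],
  [26, 24, 16, 25, 17, 1, 28, 20, 4, 12], [26, 24, 16, 28, 20, 4, 25, 17, 1, 33],
  [26, 25, 17, 24, 16, 8, 28, 20, 12, 4], [26, 25, 17, 28, 20, 12, 24, 16, 8, 32],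
  [26, 28, 20, 24, 16, 32, 25, 17, 33, 1], [26, 28, 20, 25, 17, 33, 24, 16, 32, 8],
  [28, 24, 32, 25, 33, 1, 26, 34, 2, 10], [28, 24, 32, 26, 34, 2, 25, 33, 1, 17],
  [28, 25, 33, 24, 32, 8, 26, 34, 10, 2], [28, 25, 33, 26, 34, 10, 24, 32, 8, 16],
  [28, 26, 34, 24, 32, 16, 25, 33, 17, 1], [28, 26, 34, 25, 33, 17, 24, 32, 16, 8],
  [32, 33, 1, 34, 2, 10, 35, 3, 11, 19], [32, 33, 1, 35, 3, 11, 34, 2, 10, 26],
  [32, 34, 2, 33, 1, 17, 35, 3, 19, 11], [32, 34, 2, 35, 3, 19, 33, 1, 17, 25],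
  [32, 35, 3, 33, 1, 25, 34, 2, 26, 10], [32, 35, 3, 34, 2, 26, 33, 1, 25, 17],
  [33, 32, 8, 34, 10, 2, 35, 11, 3, 19], [33, 32, 8, 35, 11, 3, 34, 10, 2, 26],
  [33, 34, 10, 32, 8, 16, 35, 11, 19, 3], [33, 34, 10, 35, 11, 19, 32, 8, 16, 24],
  [33, 35, 11, 32, 8, 24, 34, 10, 26, 2], [33, 35, 11, 34, 10, 26, 32, 8, 24, 16],
  [34, 32, 16, 33, 17, 1, 35, 19, 3, 11], [34, 32, 16, 35, 19, 3, 33, 17, 1, 25],
  [34, 33, 17, 32, 16, 8, 35, 19, 11, 3], [34, 33, 17, 35, 19, 11, 32, 16, 8, 24],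
  [34, 35, 19, 32, 16, 24, 33, 17, 25, 1], [34, 35, 19, 33, 17, 25, 32, 16, 24, 8],
  [35, 32, 24, 33, 25, 1, 34, 26, 2, 10], [35, 32, 24, 34, 26, 2, 33, 25, 1, 17],
  [35, 33, 25, 32, 24, 8, 34, 26, 10, 2], [35, 33, 25, 34, 26, 10, 32, 24, 8, 16],
  [35, 34, 26, 32, 24, 16, 33, 25, 17, 1], [35, 34, 26, 33, 25, 17, 32, 24, 16, 8]]

def reps6_0 : List (ℕ × ℕ × ℕ × ℕ × List ℕ) := [
]

def Ts6_0 : List ℕ := [
]

def B6_0 : ℕ := 0x0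

theorem okPerms6_0 : perms6_0.all (okPerm 5 0) = true := by decide +kernel

theorem okReps6_0 : reps6_0.all (fun c => decide (c.1 < 2 ^ P6.length) &&
    (exc6.contains (topCode P6.length 0 c.1) ||
      wit (5 + 1) (topCode P6.length 0 c.1) c.2.2) &&
    okT (5 + 1) c.2.1 (topCode P6.length 0 c.1)) = true := by decide +kernel

theorem okPoss6_0 : perms6_0.map (posList P6) = poss6_0 := by decide +kernel

theorem okTs6_0 : (reps6_0.map fun c => c.2.1) = Ts6_0 := by decide +kernel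

theorem okB6_0 : Nat.beq (buildB poss6_0 Ts6_0) B6_0 = true := by decide +kernel

theorem okAll6_0 : Nat.beq (Nat.land (Nat.lor (modT P6.length 0 tab6) B6_0)
    (ones P6.length)) (ones P6.length) = true := by
  decide +kernel

def perms6_1 : List ℕ := [
  181896, 178312, 181448, 174280, 177416, 173832, 181840, 178256, 180944, 170192, 176912,
  169744, 181336, 174168, 180888, 170136, 172824, 169240, 177248, 173664, 176800, 169632,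
  172768, 169184]

def poss6_1 : List (List ℕ) := [
  [1, 2, 10, 3, 11, 19, 4, 12, 20, 28], [1, 2, 10, 4, 12, 20, 3, 11, 19, 35],
  [1, 3, 11, 2, 10, 26, 4, 12, 28, 20], [1, 3, 11, 4, 12, 28, 2, 10, 26, 34],
  [1, 4, 12, 2, 10, 34, 3, 11, 35, 19], [1, 4, 12, 3, 11, 35, 2, 10, 34, 26],
  [2, 1, 17, 3, 19, 11, 4, 20, 12, 28], [2, 1, 17, 4, 20, 12, 3, 19, 11, 35],
  [2, 3, 19, 1, 17, 25, 4, 20, 28, 12], [2, 3, 19, 4, 20, 28, 1, 17, 25, 33],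
  [2, 4, 20, 1, 17, 33, 3, 19, 35, 11], [2, 4, 20, 3, 19, 35, 1, 17, 33, 25],
  [3, 1, 25, 2, 26, 10, 4, 28, 12, 20], [3, 1, 25, 4, 28, 12, 2, 26, 10, 34],
  [3, 2, 26, 1, 25, 17, 4, 28, 20, 12], [3, 2, 26, 4, 28, 20, 1, 25, 17, 33],
  [3, 4, 28, 1, 25, 33, 2, 26, 34, 10], [3, 4, 28, 2, 26, 34, 1, 25, 33, 17],
  [4, 1, 33, 2, 34, 10, 3, 35, 11, 19], [4, 1, 33, 3, 35, 11, 2, 34, 10, 26],
  [4, 2, 34, 1, 33, 17, 3, 35, 19, 11], [4, 2, 34, 3, 35, 19, 1, 33, 17, 25],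
  [4, 3, 35, 1, 33, 25, 2, 34, 26, 10], [4, 3, 35, 2, 34, 26, 1, 33, 25, 17]]

def reps6_1 : List (ℕ × ℕ × ℕ × ℕ × List ℕ) := [
  (163, 1108169265446, 0, 1193, [0, 1, 3, 2, 4, 5]),
  (165, 1108169332002, 0, 1190, [0, 2, 1, 4, 3, 5]), (167, 1108169397542, 0, 0, []),
  (172, 1108186108968, 0, 1252, [0, 2, 1, 4, 3, 5]),
  (173, 1108186109226, 0, 1254, [0, 2, 1, 4, 3, 5]),
  (174, 1108186174508, 0, 1253, [0, 2, 1, 4, 3, 5]),
  (175, 1108186174766, 0, 1255, [0, 2, 1, 4, 3, 5]),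
  (182, 1108202953764, 0, 1212, [0, 1, 3, 2, 4, 5]),
  (183, 1108202954022, 0, 1213, [0, 1, 3, 2, 4, 5]),
  (236, 1112481076280, 1, 3180, [0, 1, 2, 3, 5, 4]),
  (237, 1112481076538, 0, 1262, [0, 2, 1, 4, 3, 5]),
  (246, 1112497921076, 0, 1276, [0, 1, 3, 2, 4, 5]),
  (247, 1112497921334, 0, 1277, [0, 1, 3, 2, 4, 5]),
  (441, 1125400451370, 0, 1466, [0, 2, 1, 3, 4, 5]),
  (445, 1125400583466, 0, 1470, [0, 2, 1, 3, 4, 5])]

def Ts6_1 : List ℕ := [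
  1108169265446, 1108169332002, 1108169397542, 1108186108968, 1108186109226, 1108186174508,
  1108186174766, 1108202953764, 1108202954022, 1112481076280, 1112481076538, 1112497921076,
  1112497921334, 1125400451370, 1125400583466]

def B6_1 : ℕ := 0x6132c154a60600600438c258a6060134300f0174f70f02c8cf0002f8ef0e01525172f00f070f04a8a4f8ef000f0e0606070f070f000606060f0e0f0e060000066575f373f00006600afaecfce000057af000071f200005fae0000f4e8000037cf71f4000000003fcef2e80000000000000000000000000000000000000000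

theorem okPerms6_1 : perms6_1.all (okPerm 5 1) = true := by decide +kernel

theorem okReps6_1 : reps6_1.all (fun c => decide (c.1 < 2 ^ P6.length) &&
    (exc6.contains (topCode P6.length 1 c.1) ||
      wit (5 + 1) (topCode P6.length 1 c.1) c.2.2) &&
    okT (5 + 1) c.2.1 (topCode P6.length 1 c.1)) = true := by decide +kernel

theorem okPoss6_1 : perms6_1.map (posList P6) = poss6_1 := by decide +kernel

theorem okTs6_1 : (reps6_1.map fun c => c.2.1) = Ts6_1 := by decide +kernel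

theorem okB6_1 : Nat.beq (buildB poss6_1 Ts6_1) B6_1 = true := by decide +kernel

theorem okAll6_1 : Nat.beq (Nat.land (Nat.lor (modT P6.length 1 tab6) B6_1)
    (ones P6.length)) (ones P6.length) = true := by
  decide +kernel

def perms6_2 : List ℕ := [
  181896, 178312, 181448, 174280, 177416, 173832, 181889, 178305, 181441, 174273, 177409,
  173825]

def poss6_2 : List (List ℕ) := [
  [1, 2, 10, 3, 11, 19, 4, 12, 20, 28], [1, 2, 10, 4, 12, 20, 3, 11, 19, 35],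
  [1, 3, 11, 2, 10, 26, 4, 12, 28, 20], [1, 3, 11, 4, 12, 28, 2, 10, 26, 34],
  [1, 4, 12, 2, 10, 34, 3, 11, 35, 19], [1, 4, 12, 3, 11, 35, 2, 10, 34, 26],
  [8, 10, 2, 11, 3, 19, 12, 4, 20, 28], [8, 10, 2, 12, 4, 20, 11, 3, 19, 35],
  [8, 11, 3, 10, 2, 26, 12, 4, 28, 20], [8, 11, 3, 12, 4, 28, 10, 2, 26, 34],
  [8, 12, 4, 10, 2, 34, 11, 3, 35, 19], [8, 12, 4, 11, 3, 35, 10, 2, 34, 26]]

def reps6_2 : List (ℕ × ℕ × ℕ × ℕ × List ℕ) := [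
  (98, 3302897557556, 0, 2147, [0, 2, 5, 1, 4, 3]),
  (100, 3302897624112, 0, 2156, [0, 2, 1, 5, 4, 3]),
  (101, 3302897624370, 0, 2158, [0, 2, 1, 5, 4, 3]),
  (102, 3302897689652, 0, 2157, [0, 2, 1, 5, 4, 3]),
  (103, 3302897689910, 0, 2159, [0, 2, 1, 5, 4, 3]),
  (108, 3302914401336, 1, 1260, [0, 1, 2, 3, 5, 4]),
  (109, 3302914401594, 0, 3182, [0, 2, 1, 5, 4, 3]),
  (110, 3302914466876, 0, 3181, [0, 2, 1, 5, 4, 3]),
  (118, 3302931246132, 0, 3196, [0, 1, 3, 2, 4, 5]),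
  (119, 3302931246390, 0, 3197, [0, 1, 3, 2, 4, 5]),
  (296, 3315800219688, 0, 2345, [3, 2, 5, 0, 1, 4]),
  (298, 3315800285228, 0, 2347, [0, 5, 2, 3, 4, 1]),
  (300, 3315800351784, 0, 3428, [0, 1, 2, 4, 3, 5]),
  (301, 3315800352042, 0, 3429, [0, 1, 2, 4, 3, 5]),
  (302, 3315800417324, 0, 3430, [0, 1, 2, 4, 3, 5]),
  (303, 3315800417582, 0, 3431, [0, 1, 2, 4, 3, 5]),
  (314, 3315833841708, 0, 2425, [0, 2, 1, 3, 5, 4]),
  (315, 3315833841966, 0, 2427, [0, 2, 1, 3, 5, 4]), (368, 3320111966256, 0, 0, []),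
  (369, 3320111966514, 0, 3442, [0, 2, 1, 3, 5, 4]),
  (370, 3320112031796, 0, 3441, [0, 2, 1, 3, 5, 4]),
  (371, 3320112032054, 1, 3446, [1, 2, 0, 4, 5, 3]),
  (374, 3320112163892, 0, 3445, [0, 2, 1, 3, 5, 4]), (375, 3320112164150, 0, 0, []),
  (376, 3320128743480, 1, 3560, [0, 1, 2, 4, 3, 5]),
  (377, 3320128743738, 0, 3450, [0, 2, 1, 3, 5, 4]),
  (378, 3320128809020, 0, 3449, [0, 2, 1, 3, 5, 4]),
  (380, 3320128875576, 1, 3564, [0, 1, 2, 4, 3, 5]),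
  (381, 3320128875834, 0, 3454, [0, 2, 1, 3, 5, 4]),
  (382, 3320128941116, 0, 3453, [0, 2, 1, 3, 5, 4]),
  (812, 3350428525608, 0, 3940, [0, 1, 2, 4, 3, 5]),
  (813, 3350428525866, 0, 3941, [0, 1, 2, 4, 3, 5]),
  (814, 3350428591148, 0, 3942, [0, 1, 2, 4, 3, 5]),
  (815, 3350428591406, 0, 3943, [0, 1, 2, 4, 3, 5]),
  (886, 3354740337716, 0, 3964, [0, 1, 3, 2, 4, 5]),
  (887, 3354740337974, 0, 3965, [0, 1, 3, 2, 4, 5])]

def Ts6_2 : List ℕ := [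
  3302897557556, 3302897624112, 3302897624370, 3302897689652, 3302897689910, 3302914401336,
  3302914401594, 3302914466876, 3302931246132, 3302931246390, 3315800219688, 3315800285228,
  3315800351784, 3315800352042, 3315800417324, 3315800417582, 3315833841708, 3315833841966,
  3320111966256, 3320111966514, 3320112031796, 3320112032054, 3320112163892, 3320112164150,
  3320128743480, 3320128743738, 3320128809020, 3320128875576, 3320128875834, 3320128941116,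
  3350428525608, 3350428525866, 3350428591148, 3350428591406, 3354740337716, 3354740337974]

def B6_2 : ℕ := 0xf333c144f733c0f00c3cc1f4df3dc33c300f037cf71f43cccf0003ccdf114141f373c001c343c4f4dcfcd1c003c1c73f371f1343c00343cdcf4143c1c3400005f773c001f37005f00ffdd004dcf0077ff00f500f371003cddf50000dcf40000000000000000001f4df3dc0000000037cf71f4000000000000000000000000

theorem okPerms6_2 : perms6_2.all (okPerm 5 2) = true := by decide +kernel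

theorem okReps6_2 : reps6_2.all (fun c => decide (c.1 < 2 ^ P6.length) &&
    (exc6.contains (topCode P6.length 2 c.1) ||
      wit (5 + 1) (topCode P6.length 2 c.1) c.2.2) &&
    okT (5 + 1) c.2.1 (topCode P6.length 2 c.1)) = true := by decide +kernel

theorem okPoss6_2 : perms6_2.map (posList P6) = poss6_2 := by decide +kernel

theorem okTs6_2 : (reps6_2.map fun c => c.2.1) = Ts6_2 := by decide +kernel

theorem okB6_2 : Nat.beq (buildB poss6_2 Ts6_2) B6_2 = true := by decide +kernel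

theorem okAll6_2 : Nat.beq (Nat.land (Nat.lor (modT P6.length 2 tab6) B6_2)
    (ones P6.length)) (ones P6.length) = true := by
  decide +kernel

theorem okP6 : okPairs 5 P6 = true := by decide +kernel

theorem okTab6 : okTab (5 + 1) tab6 = true := by decide +kernel

theorem check6 (d : ℕ) (hd : 2 * d ≤ 5) : Check 5 d P6 tab6 exc6 := by
  refine ⟨okP6, rfl, okTab6, ?_⟩
  have h1 : d ≤ 2 := by omega
  interval_cases d
  · exact ⟨B6_0, reps6_0, perms6_0, poss6_0, Ts6_0,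
      okPerms6_0, okPoss6_0, okTs6_0, okReps6_0, okB6_0, okAll6_0⟩
  · exact ⟨B6_1, reps6_1, perms6_1, poss6_1, Ts6_1,
      okPerms6_1, okPoss6_1, okTs6_1, okReps6_1, okB6_1, okAll6_1⟩
  · exact ⟨B6_2, reps6_2, perms6_2, poss6_2, Ts6_2,
      okPerms6_2, okPoss6_2, okTs6_2, okReps6_2, okB6_2, okAll6_2⟩

theorem classify6 (H : SimpleGraph (Fin 6)) (hM : Member H) :
    ∃ r ∈ exc6, Nonempty (H ≃g graphOf 6 r) ∨ Nonempty (Hᶜ ≃g graphOf 6 r) :=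
  classify (n := 5) (by norm_num) check6 H hM

end Pool.Agent.H68.Ind
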