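import Pool.Agent.H68.Ind.Basic

set_option autoImplicit false

open Filter

namespace Pool.Agent.H68.Ind

/-! ### nontrivial modules -/

/-- `H` with every vertex blown up by `|M|`, where a copy of `H[M]` is put inside the blow-ups of
the vertices of `M`. -/
def modGraph {h : ℕ} (H : SimpleGraph (Fin h)) (M : Finset (Fin h)) :
    SimpleGraph (Fin h × {x : Fin h // x ∈ M}) where
  Adj x y := H.Adj x.1 y.1 ∨ (x.1 = y.1 ∧ x.1 ∈ M ∧ H.Adj x.2.1 y.2.1)
  symm := ⟨by
    rintro x y (h | ⟨h1, h2, h3⟩)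
    · exact Or.inl h.symm
    · exact Or.inr ⟨h1.symm, h1 ▸ h2, h3.symm⟩⟩
  loopless := ⟨by
    rintro x (h | ⟨_, _, h2⟩)
    · exact H.loopless.irrefl _ h
    · exact H.loopless.irrefl _ h2⟩

def modTop {h : ℕ} (H : SimpleGraph (Fin h)) (M : Finset (Fin h))
    (f : Fin h → {x : Fin h // x ∈ M}) : H ↪g modGraph H M where
  toFun v := (v, f v)
  inj' := fun v w hvw => congrArg Prod.fst hvw
  map_rel_iff' := by
    intro v w
    constructor
    · rintro (h1 | ⟨h1, _, h2⟩)
      · exact h1
      · have h3 : v = w := h1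
        subst h3
        exact absurd h2 (H.loopless.irrefl _)
    · intro h1
      exact Or.inl h1

open Classical in
noncomputable def modFun {h : ℕ} (M : Finset (Fin h)) (a : {x : Fin h // x ∈ M})
    (f : {x : Fin h // x ∉ M} → {x : Fin h // x ∈ M}) (v : Fin h) :
    Fin h × {x : Fin h // x ∈ M} :=
  if hv : v ∈ M then (a.1, ⟨v, hv⟩) else (v, f ⟨v, hv⟩)

theorem modFun_mem {h : ℕ} (M : Finset (Fin h)) (a : {x : Fin h // x ∈ M})
    (f : {x : Fin h // x ∉ M} → {x : Fin h // x ∈ M}) (v : Fin h) (hv : v ∈ M) :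
    modFun M a f v = (a.1, ⟨v, hv⟩) := by
  unfold modFun
  rw [dif_pos hv]

theorem modFun_notMem {h : ℕ} (M : Finset (Fin h)) (a : {x : Fin h // x ∈ M})
    (f : {x : Fin h // x ∉ M} → {x : Fin h // x ∈ M}) (v : Fin h) (hv : v ∉ M) :
    modFun M a f v = (v, f ⟨v, hv⟩) := by
  unfold modFun
  rw [dif_neg hv]

noncomputable def modIn {h : ℕ} (H : SimpleGraph (Fin h)) (M : Finset (Fin h))
    (hM : ∀ v, v ∉ M → ∀ a ∈ M, ∀ b ∈ M, (H.Adj v a ↔ H.Adj v b))
    (a : {x : Fin h // x ∈ M}) (f : {x : Fin h // x ∉ M} → {x : Fin h // x ∈ M}) :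
    H ↪g modGraph H M where
  toFun v := modFun M a f v
  inj' := by
    intro v w hvw
    change modFun M a f v = modFun M a f w at hvw
    by_cases hv : v ∈ M <;> by_cases hw : w ∈ M
    · rw [modFun_mem M a f v hv, modFun_mem M a f w hw] at hvw
      have h1 := congrArg (fun p => (Prod.snd p : {x : Fin h // x ∈ M}).1) hvw
      exact h1
    · rw [modFun_mem M a f v hv, modFun_notMem M a f w hw] at hvw
      have h1 : a.1 = w := congrArg Prod.fst hvw
      exact absurd (h1 ▸ a.2) hw
    · rw [modFun_notMem M a f v hv, modFun_mem M a f w hw] at hvw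
      have h1 : v = a.1 := congrArg Prod.fst hvw
      exact absurd (h1 ▸ a.2) hv
    · rw [modFun_notMem M a f v hv, modFun_notMem M a f w hw] at hvw
      exact congrArg Prod.fst hvw
  map_rel_iff' := by
    intro v w
    change (modGraph H M).Adj (modFun M a f v) (modFun M a f w) ↔ H.Adj v w
    by_cases hv : v ∈ M <;> by_cases hw : w ∈ M
    · rw [modFun_mem M a f v hv, modFun_mem M a f w hw]
      constructor
      · rintro (h1 | ⟨_, _, h2⟩)
        · exact absurd h1 (H.loopless.irrefl _)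
        · exact h2
      · intro h1
        exact Or.inr ⟨rfl, a.2, h1⟩
    · rw [modFun_mem M a f v hv, modFun_notMem M a f w hw]
      constructor
      · rintro (h1 | ⟨h1, _, _⟩)
        · have h1' : H.Adj a.1 w := h1
          exact ((hM w hw a.1 a.2 v hv).1 h1'.symm).symm
        · have h1' : a.1 = w := h1
          exact absurd (h1' ▸ a.2) hw
      · intro h1
        exact Or.inl ((hM w hw a.1 a.2 v hv).2 h1.symm).symm
    · rw [modFun_notMem M a f v hv, modFun_mem M a f w hw]
      constructor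
      · rintro (h1 | ⟨h1, _, _⟩)
        · exact (hM v hv a.1 a.2 w hw).1 h1
        · have h1' : v = a.1 := h1
          exact absurd (h1'.symm ▸ a.2) hv
      · intro h1
        exact Or.inl ((hM v hv a.1 a.2 w hw).2 h1)
    · rw [modFun_notMem M a f v hv, modFun_notMem M a f w hw]
      constructor
      · rintro (h1 | ⟨h1, h2, _⟩)
        · exact h1
        · exact absurd h2 hv
      · intro h1
        exact Or.inl h1

theorem copies_mod {h : ℕ} (H : SimpleGraph (Fin h)) (M : Finset (Fin h))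
    (hM : ∀ v, v ∉ M → ∀ a ∈ M, ∀ b ∈ M, (H.Adj v a ↔ H.Adj v b)) (hm : 2 ≤ M.card) :
    M.card ^ h + M.card * M.card ^ (h - M.card) ≤ copies H (modGraph H M) := by
  classical
  have hc : M.card ^ h + M.card * M.card ^ (h - M.card) =
      Nat.card ((Fin h → {x : Fin h // x ∈ M}) ⊕
        ({x : Fin h // x ∈ M} × ({x : Fin h // x ∉ M} → {x : Fin h // x ∈ M}))) := by
    have c1 : Nat.card {x : Fin h // x ∈ M} = M.card := by simp
    have c2 : Nat.card {x : Fin h // x ∉ M} = h - M.card := by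
      rw [Nat.card_eq_fintype_card, Fintype.card_subtype_compl, Fintype.card_fin]
      simp
    rw [Nat.card_sum, Nat.card_prod, Nat.card_fun, Nat.card_fun, c1, c2,
      Nat.card_eq_fintype_card (α := Fin h), Fintype.card_fin]
  rw [hc]
  refine le_copies H (modGraph H M) (fun p => match p with
    | Sum.inl f => modTop H M f
    | Sum.inr q => modIn H M hM q.1 q.2) ?_
  have key : ∀ (a : {x : Fin h // x ∈ M}) (f : {x : Fin h // x ∉ M} → {x : Fin h // x ∈ M})
      (v : Fin h), ((modIn H M hM a f v).1 ∈ M → (modIn H M hM a f v).1 = a.1) := by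
    intro a f v
    change ((modFun M a f v).1 ∈ M → (modFun M a f v).1 = a.1)
    by_cases hv : v ∈ M
    · rw [modFun_mem M a f v hv]
      intro _
      rfl
    · rw [modFun_notMem M a f v hv]
      intro h1
      exact absurd h1 hv
  have key2 : ∀ (a : {x : Fin h // x ∈ M}) (f : {x : Fin h // x ∉ M} → {x : Fin h // x ∈ M}),
      (modIn H M hM a f a.1) = (a.1, a) := by
    intro a f
    exact modFun_mem M a f a.1 a.2
  have key3 : ∀ (a : {x : Fin h // x ∈ M}) (f : {x : Fin h // x ∉ M} → {x : Fin h // x ∈ M})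
      (v : {x : Fin h // x ∉ M}), (modIn H M hM a f v.1) = (v.1, f v) := by
    intro a f v
    exact modFun_notMem M a f v.1 v.2
  have key4 : ∀ (a : {x : Fin h // x ∈ M}) (f : {x : Fin h // x ∉ M} → {x : Fin h // x ∈ M})
      (w : Fin h), (modIn H M hM a f w).1 ∉ M → ∃ hw : w ∉ M, modIn H M hM a f w =
        (w, f ⟨w, hw⟩) := by
    intro a f w hw
    by_cases h1 : w ∈ M
    · exfalso
      apply hw
      change (modFun M a f w).1 ∈ M
      rw [modFun_mem M a f w h1]
      exact a.2
    · exact ⟨h1, modFun_notMem M a f w h1⟩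
  -- two different elements of `M`
  obtain ⟨x1, hx1, x2, hx2, hx12⟩ := Finset.one_lt_card.1 (show 1 < M.card by omega)
  rintro (f | ⟨a, f⟩) (g | ⟨b, g⟩) hST
  · change Set.range (modTop H M f) = Set.range (modTop H M g) at hST
    have h2 : f = g := by
      funext v
      have h3 : modTop H M f v ∈ Set.range (modTop H M g) := by
        rw [← hST]; exact ⟨v, rfl⟩
      obtain ⟨w, hw⟩ := h3
      have h4 : w = v := congrArg Prod.fst hw
      have h5 : g w = f v := congrArg Prod.snd hw
      rw [h4] at h5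
      exact h5.symm
    rw [h2]
  · exfalso
    change Set.range (modTop H M f) = Set.range (modIn H M hM b g) at hST
    have h3 : ∀ v ∈ M, v = b.1 := by
      intro v hv
      have : modTop H M f v ∈ Set.range (modIn H M hM b g) := by rw [← hST]; exact ⟨v, rfl⟩
      obtain ⟨w, hw⟩ := this
      have h4 : (modIn H M hM b g w).1 = v := congrArg Prod.fst hw
      have h5 := key b g w (by rw [h4]; exact hv)
      rw [← h4, h5]
    exact hx12 ((h3 x1 hx1).trans (h3 x2 hx2).symm)
  · exfalso
    change Set.range (modIn H M hM a f) = Set.range (modTop H M g) at hST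
    have h3 : ∀ v ∈ M, v = a.1 := by
      intro v hv
      have : modTop H M g v ∈ Set.range (modIn H M hM a f) := by rw [hST]; exact ⟨v, rfl⟩
      obtain ⟨w, hw⟩ := this
      have h4 : (modIn H M hM a f w).1 = v := congrArg Prod.fst hw
      have h5 := key a f w (by rw [h4]; exact hv)
      rw [← h4, h5]
    exact hx12 ((h3 x1 hx1).trans (h3 x2 hx2).symm)
  · change Set.range (modIn H M hM a f) = Set.range (modIn H M hM b g) at hST
    have h1 : a = b := by
      have : modIn H M hM a f a.1 ∈ Set.range (modIn H M hM b g) := by rw [← hST]; exact ⟨_, rfl⟩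
      obtain ⟨w, hw⟩ := this
      rw [key2] at hw
      have h4 : (modIn H M hM b g w).1 = a.1 := congrArg Prod.fst hw
      have h5 := key b g w (by rw [h4]; exact a.2)
      exact Subtype.ext (h4.symm.trans h5)
    subst h1
    have h2 : f = g := by
      funext v
      have : modIn H M hM a f v.1 ∈ Set.range (modIn H M hM a g) := by rw [← hST]; exact ⟨_, rfl⟩
      obtain ⟨w, hw⟩ := this
      rw [key3] at hw
      have h4 : (modIn H M hM a g w).1 = v.1 := congrArg Prod.fst hw
      obtain ⟨hw1, hw2⟩ := key4 a g w (by rw [h4]; exact v.2)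
      rw [hw2] at hw
      have h5 : w = v.1 := congrArg Prod.fst hw
      have h6 : g ⟨w, hw1⟩ = f v := congrArg Prod.snd hw
      have h7 : (⟨w, hw1⟩ : {x : Fin h // x ∉ M}) = v := Subtype.ext h5
      rw [h7] at h6
      exact h6.symm
    rw [h2]

/-- A graph with a nontrivial module is not in the family. -/
theorem no_module {h : ℕ} {H : SimpleGraph (Fin h)} (hH : Member H) (M : Finset (Fin h))
    (hm : 2 ≤ M.card) (hmh : M.card < h)
    (hM : ∀ v, v ∉ M → ∀ a ∈ M, ∀ b ∈ M, (H.Adj v a ↔ H.Adj v b)) : False := by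
  have hh : 2 ≤ h := by omega
  have h1 := copies_mod H M hM hm
  set m := M.card with hmdef
  have hcard : Fintype.card (Fin h × {x : Fin h // x ∈ M}) = h * m := by
    rw [Fintype.card_prod, Fintype.card_fin]
    simp [hmdef]
  have h2 := basic hh hH (modGraph H M) (by rw [hcard]; nlinarith)
  rw [hcard] at h2
  have h3 : (m ^ h + m * m ^ (h - m)) * (h ^ h - h) ≤ (h * m) ^ h - h * m :=
    (Nat.mul_le_mul_right _ h1).trans h2
  -- numerical contradiction
  have n1 : h ≤ h ^ h := Nat.le_self_pow (by omega) h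
  have n2 : h * m ≤ (h * m) ^ h := Nat.le_self_pow (by omega) _
  have n3 : m ^ m ≤ m * h ^ (h - 2) := by
    calc m ^ m = m * m ^ (m - 1) := by
          rw [← pow_succ']; congr 1; omega
      _ ≤ m * h ^ (m - 1) := Nat.mul_le_mul_left _ (Nat.pow_le_pow_left (by omega) _)
      _ ≤ m * h ^ (h - 2) := Nat.mul_le_mul_left _ (Nat.pow_le_pow_right (by omega) (by omega))
  have n4 : h * h ^ (h - 2) + h ≤ h ^ h := by
    have e1 : h ^ h = h * h ^ (h - 1) := by rw [← pow_succ']; congr 1; omega
    have e2 : h ^ (h - 1) = h * h ^ (h - 2) := by rw [← pow_succ']; congr 1; omega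
    have e3 : 1 ≤ h ^ (h - 2) := Nat.one_le_pow _ _ (by omega)
    rw [e1, e2]
    have : h ^ (h - 2) + 1 ≤ h * h ^ (h - 2) := by nlinarith
    nlinarith
  have n5 : m ^ h = m ^ m * m ^ (h - m) := by rw [← pow_add]; congr 1; omega
  have n6 : 1 ≤ m ^ (h - m) := Nat.one_le_pow _ _ (by omega)
  -- work in the integers
  have z1 : ((m : ℤ) ^ h + m * (m : ℤ) ^ (h - m)) * ((h : ℤ) ^ h - h) ≤
      (h : ℤ) ^ h * (m : ℤ) ^ h - h * m := by
    have : (((m ^ h + m * m ^ (h - m)) * (h ^ h - h) : ℕ) : ℤ) ≤ (((h * m) ^ h - h * m : ℕ) : ℤ) :=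
      by exact_mod_cast h3
    rw [Nat.cast_mul, Nat.cast_sub n1, Nat.cast_sub n2] at this
    push_cast at this
    rw [mul_pow] at this
    exact this
  have z2 : (h : ℤ) * (h : ℤ) ^ (h - 2) + h ≤ (h : ℤ) ^ h := by exact_mod_cast n4
  have z3 : (m : ℤ) ^ m ≤ m * (h : ℤ) ^ (h - 2) := by exact_mod_cast n3
  have z5 : (m : ℤ) ^ h = (m : ℤ) ^ m * (m : ℤ) ^ (h - m) := by exact_mod_cast n5
  have z6 : (1 : ℤ) ≤ (m : ℤ) ^ (h - m) := by exact_mod_cast n6
  have z7 : (m : ℤ) * (m : ℤ) ^ (h - m) * ((h : ℤ) ^ h - h) ≤ h * (m : ℤ) ^ h - h * m := by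
    nlinarith
  have z8 : (m : ℤ) * (m : ℤ) ^ (h - m) * ((h : ℤ) * (h : ℤ) ^ (h - 2)) ≤
      (m : ℤ) * (m : ℤ) ^ (h - m) * ((h : ℤ) ^ h - h) :=
    mul_le_mul_of_nonneg_left (by linarith) (by positivity)
  have z9 : (h : ℤ) * (m : ℤ) ^ h ≤ (h : ℤ) * ((m * (h : ℤ) ^ (h - 2)) * (m : ℤ) ^ (h - m)) := by
    rw [z5]
    exact mul_le_mul_of_nonneg_left (mul_le_mul_of_nonneg_right z3 (by positivity)) (by positivity)
  have z10 : (0 : ℤ) < h * m := by
    have : 0 < h * m := by nlinarith
    exact_mod_cast this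
  nlinarith

end Pool.Agent.H68.Ind
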